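import Pool.Agent.K9h49.SM.Static2

set_option autoImplicit false

/-!
# All steps of the algorithm
-/

namespace Pool.Agent.K9h49.SM

open Finset Pool.Agent.H699R2.OMV

lemma prog_congr {A W O : Type} (P : Prog A W O) (x x' : A → W)
    (h : ∀ a ∈ P.addrs x, x' a = x a) : P.addrs x' = P.addrs x ∧ P.out x' = P.out x := by
  induction P with
  | done o => exact ⟨rfl, rfl⟩
  | probe a k ih =>
    have h1 : x' a = x a := h a (by simp [Prog.addrs])
    have h2 := ih (x a) (fun b hb => h b (by simp [Prog.addrs, hb]))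
    constructor
    · simp only [Prog.addrs]
      rw [h1, h2.1]
    · simp only [Prog.out]
      rw [h1, h2.2]

lemma before_congr {n : ℕ} {vs vs' : Fin n → Vec n} {q : Fin n}
    (h : ∀ i, i < q → vs i = vs' i) : before vs q = before vs' q := by
  unfold before
  apply List.ext_getElem?
  intro i
  rw [List.getElem?_take, List.getElem?_take]
  split_ifs with hi
  · have hi' : i < n := lt_trans hi q.2
    simp [hi', h ⟨i, hi'⟩ hi]
  · rfl

variable {n : ℕ} {Ω A W : Type} [Fintype A] [DecidableEq A] [Fintype W] [DecidableEq W]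

/-- the query algorithm for given coins and earlier vectors -/
def qry (alg : Alg n Ω A W) (ω : Ω) (h : List (Vec n)) : Query n A W where
  C v x := ((alg.prog ω h v).addrs x).toFinset
  ans v x := (alg.prog ω h v).out x
  cert := by
    intro v x x' hx
    have h1 := prog_congr (alg.prog ω h v) x x' (fun a ha => hx a (List.mem_toFinset.2 ha))
    exact ⟨by rw [h1.1], h1.2⟩

/-- the answers before the `q`-th one are right -/
def OK (alg : Alg n Ω A W) (ω : Ω) (M : Mat n) (vs : Fin n → Vec n) (q : Fin n) : Prop :=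
  ∀ j, j < q → alg.answer ω M vs j = M.mulVec (vs j)

/-- number of cells in `J` probed for the `q`-th vector -/
def cst (alg : Alg n Ω A W) (J : Finset A) (ω : Ω) (M : Mat n) (vs : Fin n → Vec n)
    (q : Fin n) : ℝ := (((alg.probes ω M vs q).toFinset ∩ J).card : ℝ)

open Classical in
/-- **one step, all earlier vectors** -/
lemma step [Nonempty W] (alg : Alg n Ω A W) (J : Finset A)
    (K : ℝ) (hK : 0 < K) (B D E : ℕ) (hn : 0 < n)
    (h500 : 500 * B ≤ n) (hB : 640 * (J.card + 1) ^ E ≤ 2 ^ B)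
    (hD : 40 * (B : ℝ) ≤ K * (D + 1))
    (hsz : 4000 * Fintype.card W ^ (Fintype.card A - J.card + E + D) < 7 * 2 ^ (n * n))
    (ω : Ω) (q : Fin n) :
    4 / 5 * (∑ vs : Fin n → Vec n, ∑ M : Mat n, (if OK alg ω M vs q then (1 : ℝ) else 0)) ≤
      11 / 10 * n * (∑ vs : Fin n → Vec n, ∑ M : Mat n,
        (if OK alg ω M vs q ∧ alg.answer ω M vs q ≠ M.mulVec (vs q) then (1 : ℝ) else 0)) +
      (K + 4 / 5 / (E + 1)) * (∑ vs : Fin n → Vec n, ∑ M : Mat n, cst alg J ω M vs q) +
      1 / 25 * (2 ^ (n * n) * (Fintype.card (Fin n → Vec n) : ℝ)) := by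
  obtain ⟨F0, hF0⟩ : ∃ F0 : (Fin n → Vec n) → ℝ, F0 = fun vs =>
    ∑ M : Mat n, (if OK alg ω M vs q then (1 : ℝ) else 0) := ⟨_, rfl⟩
  obtain ⟨F1, hF1⟩ : ∃ F1 : (Fin n → Vec n) → ℝ, F1 = fun vs => ∑ M : Mat n,
    (if OK alg ω M vs q ∧ alg.answer ω M vs q ≠ M.mulVec (vs q) then (1 : ℝ) else 0) := ⟨_, rfl⟩
  obtain ⟨F2, hF2⟩ : ∃ F2 : (Fin n → Vec n) → ℝ, F2 = fun vs =>
    ∑ M : Mat n, cst alg J ω M vs q := ⟨_, rfl⟩
  have main : ∀ vs : Fin n → Vec n,
      4 / 5 * (∑ v, F0 (Function.update vs q v)) ≤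
      11 / 10 * n * (∑ v, F1 (Function.update vs q v)) +
      (K + 4 / 5 / (E + 1)) * (∑ v, F2 (Function.update vs q v)) +
      1 / 25 * (2 ^ (n * n) * 2 ^ n) := by
    intro vs
    have hbef : ∀ v, ∀ j, j ≤ q → before (Function.update vs q v) j = before vs j := by
      intro v j hj
      apply before_congr
      intro i hi
      rw [Function.update_of_ne (ne_of_lt (lt_of_lt_of_le hi hj))]
    have hOK : ∀ v M, OK alg ω M (Function.update vs q v) q ↔ OK alg ω M vs q := by
      intro v M
      unfold OK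
      apply forall_congr'
      intro j
      apply imp_congr_right
      intro hj
      unfold Alg.answer
      rw [hbef v j hj.le, Function.update_of_ne (ne_of_lt hj)]
    obtain ⟨S, hS⟩ : ∃ S, S = (univ : Finset (Mat n)).filter (fun M => OK alg ω M vs q) :=
      ⟨_, rfl⟩
    have h := static_main (qry alg ω (before vs q)) (fun M => alg.mem ω M (before vs q)) J S K hK
      B D E hn h500 hB hD hsz
    have e0 : ∑ v, F0 (Function.update vs q v) = (S.card : ℝ) * 2 ^ n := by
      have : ∀ v, F0 (Function.update vs q v) = (S.card : ℝ) := by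
        intro v
        rw [hF0]
        simp only [hOK]
        rw [sum_boole, hS]
      simp only [this]
      rw [sum_const, nsmul_eq_mul, card_univ, card_vec]
      push_cast
      ring
    have e1 : ∑ v, F1 (Function.update vs q v) = ∑ M ∈ S, ∑ v,
        wr (qry alg ω (before vs q)) (fun M => alg.mem ω M (before vs q)) M v := by
      rw [sum_comm]
      apply sum_congr rfl
      intro v _
      rw [hF1, hS, sum_filter]
      simp only [hOK]
      apply sum_congr rfl
      intro M _
      have h1 : alg.answer ω M (Function.update vs q v) q =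
          (qry alg ω (before vs q)).ans v (alg.mem ω M (before vs q)) := by
        unfold Alg.answer qry
        rw [hbef v q le_rfl, Function.update_self]
      rw [h1, Function.update_self]
      unfold wr
      by_cases h2 : OK alg ω M vs q
      · by_cases h3 : (qry alg ω (before vs q)).ans v (alg.mem ω M (before vs q)) = M.mulVec v
        · rw [if_neg (by tauto), if_pos h2, if_pos h3]
        · rw [if_pos ⟨h2, h3⟩, if_pos h2, if_neg h3]
      · rw [if_neg (by tauto), if_neg h2]
    have e2 : ∑ M ∈ S, ∑ v,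
        cost (qry alg ω (before vs q)) (fun M => alg.mem ω M (before vs q)) J M v ≤
        ∑ v, F2 (Function.update vs q v) := by
      rw [sum_comm]
      apply sum_le_sum
      intro v _
      rw [hF2]
      refine le_trans (sum_le_sum_of_subset_of_nonneg (subset_univ S)
        (fun M _ _ => cost_nonneg _ _ _ _ _)) (le_of_eq ?_)
      apply sum_congr rfl
      intro M _
      unfold cost cst Alg.probes qry
      rw [hbef v q le_rfl, Function.update_self]
    rw [e0, e1]
    have h3 : (0 : ℝ) ≤ K + 4 / 5 / ((E : ℝ) + 1) := by positivity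
    have h4 := mul_le_mul_of_nonneg_left e2 h3
    linarith
  have hsum := sum_le_sum (fun vs (_ : vs ∈ (univ : Finset (Fin n → Vec n))) => main vs)
  rw [sum_add_distrib, sum_add_distrib, ← mul_sum, ← mul_sum, ← mul_sum,
    sum_update_fun, sum_update_fun, sum_update_fun, sum_const, nsmul_eq_mul, card_univ,
    card_vec] at hsum
  have h2 : (0 : ℝ) < 2 ^ n := by positivity
  have hfin : (2 : ℝ) ^ n * (4 / 5 * ∑ vs, F0 vs) ≤ 2 ^ n * (11 / 10 * n * (∑ vs, F1 vs) +
      (K + 4 / 5 / (E + 1)) * (∑ vs, F2 vs) +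
      1 / 25 * (2 ^ (n * n) * (Fintype.card (Fin n → Vec n) : ℝ))) := by
    push_cast at hsum ⊢
    linarith
  have := le_of_mul_le_mul_left hfin h2
  rw [hF0, hF1, hF2] at this
  exact this

open Classical in
/-- **the bound for one block of cells** -/
lemma block [Nonempty W] [Fintype Ω] (alg : Alg n Ω A W) (μ : Ω → ℝ) (hμ : IsProb μ) (J : Finset A)
    (K : ℝ) (hK : 0 < K) (B D E : ℕ) (hn : 0 < n)
    (h500 : 500 * B ≤ n) (hB : 640 * (J.card + 1) ^ E ≤ 2 ^ B)
    (hD : 40 * (B : ℝ) ≤ K * (D + 1))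
    (hsz : 4000 * Fintype.card W ^ (Fintype.card A - J.card + E + D) < 7 * 2 ^ (n * n))
    (herr : avg (fun M vs => ∑ ω, μ ω *
      (if ∃ q, alg.answer ω M vs q ≠ M.mulVec (vs q) then (1 : ℝ) else 0)) ≤ 1 / 3) :
    19 / 150 * (n : ℝ) ≤ (K + 4 / 5 / (E + 1)) *
      avg (fun M vs => ∑ ω, μ ω * ∑ q, cst alg J ω M vs q) := by
  obtain ⟨T, hT⟩ : ∃ T : ℝ, T = 2 ^ (n * n) * (Fintype.card (Fin n → Vec n) : ℝ) := ⟨_, rfl⟩
  have hT0 : 0 < T := by
    rw [hT]
    have : (0 : ℝ) < (Fintype.card (Fin n → Vec n) : ℝ) := by exact_mod_cast Fintype.card_pos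
    positivity
  have hTavg : ∀ F : Mat n → (Fin n → Vec n) → ℝ, ∑ M, ∑ vs, F M vs = T * avg F := by
    intro F
    unfold avg
    have h1 : (Fintype.card (Mat n) : ℝ) * (Fintype.card (Fin n → Vec n) : ℝ) = T := by
      rw [hT, card_mat]; push_cast; rfl
    rw [h1]
    field_simp
  -- the inequality for fixed coins
  have hω : ∀ ω, 4 / 5 * (n * ∑ M : Mat n, ∑ vs : Fin n → Vec n, (1 -
        (if ∃ q, alg.answer ω M vs q ≠ M.mulVec (vs q) then (1 : ℝ) else 0))) ≤
      11 / 10 * n * (∑ M : Mat n, ∑ vs : Fin n → Vec n,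
        (if ∃ q, alg.answer ω M vs q ≠ M.mulVec (vs q) then (1 : ℝ) else 0)) +
      (K + 4 / 5 / (E + 1)) * (∑ M : Mat n, ∑ vs : Fin n → Vec n, ∑ q, cst alg J ω M vs q) +
      n * (1 / 25 * T) := by
    intro ω
    have h1 := sum_le_sum (fun q (_ : q ∈ (univ : Finset (Fin n))) =>
      step alg J K hK B D E hn h500 hB hD hsz ω q)
    rw [sum_add_distrib, sum_add_distrib, ← mul_sum, ← mul_sum, ← mul_sum, sum_const, nsmul_eq_mul,
      card_univ, Fintype.card_fin, ← hT] at h1
    have s0 : (n : ℝ) * ∑ M : Mat n, ∑ vs : Fin n → Vec n, (1 -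
        (if ∃ q, alg.answer ω M vs q ≠ M.mulVec (vs q) then (1 : ℝ) else 0)) ≤
        ∑ q : Fin n, ∑ vs : Fin n → Vec n, ∑ M : Mat n,
          (if OK alg ω M vs q then (1 : ℝ) else 0) := by
      have e1 : ∑ q : Fin n, ∑ vs : Fin n → Vec n, ∑ M : Mat n,
          (if OK alg ω M vs q then (1 : ℝ) else 0) =
          ∑ M : Mat n, ∑ vs : Fin n → Vec n, ∑ q : Fin n,
          (if OK alg ω M vs q then (1 : ℝ) else 0) := by
        rw [sum_comm]
        conv_lhs => arg 2; ext vs; rw [sum_comm]
        rw [sum_comm]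
      rw [e1, mul_sum]
      apply sum_le_sum
      intro M _
      rw [mul_sum]
      apply sum_le_sum
      intro vs _
      split_ifs with h2
      · rw [sub_self, mul_zero]
        apply sum_nonneg
        intro q _
        split_ifs <;> norm_num
      · push Not at h2
        rw [sub_zero, mul_one]
        have h3 : ∀ q : Fin n, (if OK alg ω M vs q then (1 : ℝ) else 0) = 1 := by
          intro q
          rw [if_pos]
          intro j _
          exact h2 j
        simp only [h3]
        simp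
    have s1 : ∑ q : Fin n, ∑ vs : Fin n → Vec n, ∑ M : Mat n,
        (if OK alg ω M vs q ∧ alg.answer ω M vs q ≠ M.mulVec (vs q) then (1 : ℝ) else 0) ≤
        ∑ M : Mat n, ∑ vs : Fin n → Vec n,
        (if ∃ q, alg.answer ω M vs q ≠ M.mulVec (vs q) then (1 : ℝ) else 0) := by
      have e1 : ∑ q : Fin n, ∑ vs : Fin n → Vec n, ∑ M : Mat n,
          (if OK alg ω M vs q ∧ alg.answer ω M vs q ≠ M.mulVec (vs q) then (1 : ℝ) else 0) =
          ∑ M : Mat n, ∑ vs : Fin n → Vec n, ∑ q : Fin n,
          (if OK alg ω M vs q ∧ alg.answer ω M vs q ≠ M.mulVec (vs q) then (1 : ℝ) else 0) := by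
        rw [sum_comm]
        conv_lhs => arg 2; ext vs; rw [sum_comm]
        rw [sum_comm]
      rw [e1]
      apply sum_le_sum
      intro M _
      apply sum_le_sum
      intro vs _
      split_ifs with h2
      · rw [sum_boole]
        have h3 : ((univ : Finset (Fin n)).filter (fun q => OK alg ω M vs q ∧
            alg.answer ω M vs q ≠ M.mulVec (vs q))).card ≤ 1 := by
          rw [card_le_one]
          intro a ha b hb
          rw [mem_filter] at ha hb
          rcases lt_trichotomy a b with h4 | h4 | h4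
          · exact absurd (hb.2.1 a h4) ha.2.2
          · exact h4
          · exact absurd (ha.2.1 b h4) hb.2.2
        exact_mod_cast h3
      · push Not at h2
        apply le_of_eq
        apply sum_eq_zero
        intro q _
        rw [if_neg]
        intro h3
        exact h3.2 (h2 q)
    have s2 : ∑ q : Fin n, ∑ vs : Fin n → Vec n, ∑ M : Mat n, cst alg J ω M vs q =
        ∑ M : Mat n, ∑ vs : Fin n → Vec n, ∑ q, cst alg J ω M vs q := by
      rw [sum_comm]
      conv_lhs => arg 2; ext vs; rw [sum_comm]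
      rw [sum_comm]
    rw [s2] at h1
    have h3 : (0 : ℝ) ≤ 11 / 10 * n := by positivity
    have h4 := mul_le_mul_of_nonneg_left s1 h3
    linarith
  -- average over the coins
  obtain ⟨bad, hbad⟩ : ∃ bad : Mat n → (Fin n → Vec n) → ℝ, bad = fun M vs => ∑ ω, μ ω *
      (if ∃ q, alg.answer ω M vs q ≠ M.mulVec (vs q) then (1 : ℝ) else 0) := ⟨_, rfl⟩
  obtain ⟨cc, hcc⟩ : ∃ cc : Mat n → (Fin n → Vec n) → ℝ, cc = fun M vs => ∑ ω, μ ω *
      ∑ q, cst alg J ω M vs q := ⟨_, rfl⟩
  have hsum := sum_le_sum (fun ω (_ : ω ∈ (univ : Finset Ω)) =>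
    mul_le_mul_of_nonneg_left (hω ω) (hμ.nonneg ω))
  have l1 : ∑ ω, μ ω * (4 / 5 * (n * ∑ M : Mat n, ∑ vs : Fin n → Vec n, (1 -
        (if ∃ q, alg.answer ω M vs q ≠ M.mulVec (vs q) then (1 : ℝ) else 0)))) =
      4 / 5 * (n * (T - ∑ M, ∑ vs, bad M vs)) := by
    have h1 : ∀ ω, μ ω * (4 / 5 * (n * ∑ M : Mat n, ∑ vs : Fin n → Vec n, (1 -
        (if ∃ q, alg.answer ω M vs q ≠ M.mulVec (vs q) then (1 : ℝ) else 0)))) =
        4 / 5 * n * (μ ω * T - ∑ M : Mat n, ∑ vs : Fin n → Vec n, μ ω *
        (if ∃ q, alg.answer ω M vs q ≠ M.mulVec (vs q) then (1 : ℝ) else 0)) := by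
      intro ω
      simp only [sum_sub_distrib, sum_const, nsmul_eq_mul, card_univ, mul_one, ← mul_sum]
      rw [card_mat, hT]
      push_cast
      ring
    simp only [h1]
    rw [← mul_sum, sum_sub_distrib, ← sum_mul, hμ.sum_one, one_mul, hbad]
    have h2 : ∑ ω, ∑ M : Mat n, ∑ vs : Fin n → Vec n, μ ω *
        (if ∃ q, alg.answer ω M vs q ≠ M.mulVec (vs q) then (1 : ℝ) else 0) =
        ∑ M : Mat n, ∑ vs : Fin n → Vec n, ∑ ω, μ ω *
        (if ∃ q, alg.answer ω M vs q ≠ M.mulVec (vs q) then (1 : ℝ) else 0) := by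
      rw [sum_comm]
      apply sum_congr rfl
      intro M _
      rw [sum_comm]
    rw [h2]
    ring
  have l2 : ∑ ω, μ ω * (11 / 10 * n * (∑ M : Mat n, ∑ vs : Fin n → Vec n,
        (if ∃ q, alg.answer ω M vs q ≠ M.mulVec (vs q) then (1 : ℝ) else 0)) +
      (K + 4 / 5 / (E + 1)) * (∑ M : Mat n, ∑ vs : Fin n → Vec n, ∑ q, cst alg J ω M vs q) +
      n * (1 / 25 * T)) = 11 / 10 * n * (∑ M, ∑ vs, bad M vs) +
      (K + 4 / 5 / (E + 1)) * (∑ M, ∑ vs, cc M vs) + n * (1 / 25 * T) := by
    simp only [mul_add, sum_add_distrib]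
    rw [← sum_mul, hμ.sum_one, one_mul]
    congr 1
    · congr 1
      · rw [hbad]
        simp only [mul_sum]
        rw [sum_comm]
        apply sum_congr rfl
        intro M _
        rw [sum_comm]
        apply sum_congr rfl
        intro vs _
        apply sum_congr rfl
        intro ω _
        ring
      · obtain ⟨kap, hkap⟩ : ∃ kap : ℝ, kap = K + 4 / 5 / (E + 1) := ⟨_, rfl⟩
        rw [← hkap, hcc]
        simp only [mul_sum]
        rw [sum_comm]
        apply sum_congr rfl
        intro M _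
        rw [sum_comm]
        apply sum_congr rfl
        intro vs _
        apply sum_congr rfl
        intro ω _
        apply sum_congr rfl
        intro q _
        ring
  rw [l1, l2, hTavg bad, hTavg cc] at hsum
  rw [← hbad] at herr
  rw [← hcc]
  have hn' : (0 : ℝ) < n := by exact_mod_cast hn
  have h5 : T * (4 / 5 * (n * (1 - avg bad))) ≤ T * (11 / 10 * n * avg bad +
      (K + 4 / 5 / (E + 1)) * avg cc + n * (1 / 25)) := by
    calc T * (4 / 5 * (n * (1 - avg bad))) = 4 / 5 * (n * (T - T * avg bad)) := by ring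
      _ ≤ _ := hsum
      _ = _ := by ring
  have h6 := le_of_mul_le_mul_left h5 hT0
  have h7 : (n : ℝ) * avg bad ≤ n * (1 / 3) := mul_le_mul_of_nonneg_left herr hn'.le
  linarith

end Pool.Agent.K9h49.SM
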