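import Pool.Agent.K9h49.SM.Dyn

set_option autoImplicit false

/-!
# Disjoint blocks of cells, and the numbers
-/

namespace Pool.Agent.K9h49.SM

open Finset Pool.Agent.H699R2.OMV

lemma avg_mono {n : ℕ} {F G : Mat n → (Fin n → Vec n) → ℝ} (h : ∀ M vs, F M vs ≤ G M vs) :
    avg F ≤ avg G := by
  unfold avg
  gcongr
  exact h _ _

lemma avg_sum {n : ℕ} {ι : Type*} (s : Finset ι) (F : ι → Mat n → (Fin n → Vec n) → ℝ) :
    avg (fun M vs => ∑ i ∈ s, F i M vs) = ∑ i ∈ s, avg (F i) := by
  unfold avg
  rw [← sum_div]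
  congr 1
  calc ∑ M, ∑ vs, ∑ i ∈ s, F i M vs = ∑ M, ∑ i ∈ s, ∑ vs, F i M vs :=
        sum_congr rfl (fun M _ => sum_comm)
    _ = _ := sum_comm

lemma avg_nonneg {n : ℕ} {F : Mat n → (Fin n → Vec n) → ℝ} (h : ∀ M vs, 0 ≤ F M vs) :
    0 ≤ avg F := by
  unfold avg
  exact div_nonneg (sum_nonneg fun M _ => sum_nonneg fun vs _ => h M vs) (by positivity)

/-- the `i`-th block of `k` cells -/
noncomputable def blk (A : Type) [Fintype A] (k i : ℕ) : Finset A :=
  (univ : Finset (Fin (Fintype.card A))).filter (fun x => x.1 / k = i) |>.map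
    (Fintype.equivFin A).symm.toEmbedding

lemma card_blk (A : Type) [Fintype A] (k i : ℕ) (hk : 0 < k) (hi : i < Fintype.card A / k) :
    (blk A k i).card = k := by
  unfold blk
  rw [card_map]
  obtain ⟨N, hN⟩ : ∃ N, N = Fintype.card A := ⟨_, rfl⟩
  have h1 : (i + 1) * k ≤ Fintype.card A :=
    (Nat.mul_le_mul_right k hi).trans (Nat.div_mul_le_self _ _)
  have h2 : ((univ : Finset (Fin (Fintype.card A))).filter (fun x => x.1 / k = i)).card =
      (Finset.Ico (i * k) ((i + 1) * k)).card := by
    apply Finset.card_bij (fun x _ => x.1)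
    · intro x hx
      rw [mem_filter] at hx
      rw [mem_Ico]
      have h3 := hx.2
      rw [Nat.div_eq_iff hk] at h3
      constructor
      · linarith [h3.1, mul_comm i k]
      · have := h3.2
        have h4 : (i + 1) * k = i * k + k := by ring
        omega
    · intro x _ y _ h
      exact Fin.ext h
    · intro x hx
      rw [mem_Ico] at hx
      refine ⟨⟨x, lt_of_lt_of_le hx.2 h1⟩, ?_, rfl⟩
      rw [mem_filter]
      refine ⟨mem_univ _, ?_⟩
      simp only
      rw [Nat.div_eq_iff hk]
      constructor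
      · linarith [hx.1, mul_comm i k]
      · have h4 : (i + 1) * k = i * k + k := by ring
        omega
  rw [h2, Nat.card_Ico]
  have : (i + 1) * k = i * k + k := by ring
  omega

variable {n : ℕ} {Ω A W : Type} [Fintype A] [DecidableEq A]

lemma sum_cst_le (alg : Alg n Ω A W) (k m : ℕ) (ω : Ω) (M : Mat n) (vs : Fin n → Vec n)
    (q : Fin n) :
    ∑ i ∈ range m, cst alg (blk A k i) ω M vs q ≤ ((alg.probes ω M vs q).length : ℝ) := by
  unfold cst
  have h1 : ∑ i ∈ range m, ((alg.probes ω M vs q).toFinset ∩ blk A k i).card ≤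
      (alg.probes ω M vs q).toFinset.card := by
    rw [← card_biUnion]
    · apply card_le_card
      intro a ha
      rw [mem_biUnion] at ha
      obtain ⟨i, _, hi⟩ := ha
      exact (mem_inter.1 hi).1
    · intro i _ j _ hij
      change Disjoint _ _
      rw [Finset.disjoint_left]
      intro a h1 h2
      have h1' := (mem_inter.1 h1).2
      have h2' := (mem_inter.1 h2).2
      unfold blk at h1' h2'
      rw [mem_map] at h1' h2'
      obtain ⟨x, hx, hxa⟩ := h1'
      obtain ⟨y, hy, hya⟩ := h2'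
      rw [mem_filter] at hx hy
      have h3 : x = y := by
        apply (Fintype.equivFin A).symm.injective
        exact hxa.trans hya.symm
      rw [h3] at hx
      exact hij (hx.2.symm.trans hy.2)
  have h2 := h1.trans (List.toFinset_card_le _)
  exact_mod_cast h2

lemma total_ge [Fintype Ω] (alg : Alg n Ω A W) (μ : Ω → ℝ) (hμ : IsProb μ) (k : ℕ) (hk : 0 < k)
    (c : ℝ) (h : ∀ J : Finset A, J.card = k → c ≤ avg (fun M vs => ∑ ω, μ ω *
      ∑ q, cst alg J ω M vs q)) :
    ((Fintype.card A / k : ℕ) : ℝ) * c ≤ avg (fun M vs => ∑ ω, μ ω *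
      ∑ q, ((alg.probes ω M vs q).length : ℝ)) := by
  obtain ⟨m, hm⟩ : ∃ m, m = Fintype.card A / k := ⟨_, rfl⟩
  rw [← hm]
  calc (m : ℝ) * c = ∑ _i ∈ range m, c := by rw [sum_const, card_range, nsmul_eq_mul]
    _ ≤ ∑ i ∈ range m, avg (fun M vs => ∑ ω, μ ω * ∑ q, cst alg (blk A k i) ω M vs q) := by
        apply sum_le_sum
        intro i hi
        rw [mem_range] at hi
        exact h _ (card_blk A k i hk (by rw [← hm]; exact hi))
    _ = avg (fun M vs => ∑ i ∈ range m, ∑ ω, μ ω * ∑ q, cst alg (blk A k i) ω M vs q) := by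
        rw [avg_sum]
    _ ≤ _ := by
        apply avg_mono
        intro M vs
        rw [sum_comm]
        apply sum_le_sum
        intro ω _
        rw [← mul_sum]
        apply mul_le_mul_of_nonneg_left _ (hμ.nonneg ω)
        rw [sum_comm]
        apply sum_le_sum
        intro q _
        exact sum_cst_le alg k m ω M vs q

end Pool.Agent.K9h49.SM
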