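import Pool.Agent.K9h49.SM.Fin

set_option autoImplicit false

/-!
# The lower bound
-/

namespace Pool.Agent.K9h49.SM

open Finset Pool.Agent.H699R2.OMV

open Classical in
/-- the memory has at least `n ^ 2 - 10` bits -/
lemma memory_ge {n w : ℕ} (hn : 10 ^ 4 ≤ n) {Ω A W : Type} [Fintype Ω] [Fintype A]
    [Fintype W] [Nonempty W] (hW : Fintype.card W ≤ 2 ^ w)
    (alg : Alg n Ω A W) (μ : Ω → ℝ) (hμ : IsProb μ)
    (herr : avg (fun M vs => ∑ ω, μ ω *
      (if ∃ q, alg.answer ω M vs q ≠ M.mulVec (vs q) then (1 : ℝ) else 0)) ≤ 1 / 3) :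
    n * n ≤ w * Fintype.card A + 10 := by
  by_contra hcon
  push Not at hcon
  have hn0 : 0 < n := by omega
  have hsz : 4000 * Fintype.card W ^ (Fintype.card A - (∅ : Finset A).card + 0 + 0) <
      7 * 2 ^ (n * n) := by
    rw [card_empty, Nat.sub_zero, Nat.add_zero]
    calc 4000 * Fintype.card W ^ Fintype.card A ≤ 4000 * (2 ^ w) ^ Fintype.card A := by gcongr
      _ = 4000 * 2 ^ (w * Fintype.card A) := by rw [← pow_mul]
      _ < 7 * 2 ^ 11 * 2 ^ (w * Fintype.card A) := by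
          apply Nat.mul_lt_mul_of_pos_right (by norm_num) (by positivity)
      _ = 7 * 2 ^ (11 + w * Fintype.card A) := by rw [pow_add]; ring
      _ ≤ 7 * 2 ^ (n * n) := by
          gcongr
          · norm_num
          · omega
  have h := block alg μ hμ (∅ : Finset A) 400 (by norm_num) 10 0 0 hn0 (by omega) (by simp)
    (by norm_num) hsz herr
  have h0 : avg (fun M vs => ∑ ω, μ ω * ∑ q, cst alg (∅ : Finset A) ω M vs q) = 0 := by
    unfold avg cst
    simp
  rw [h0, mul_zero] at h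
  have h1 : (0 : ℝ) < n := by exact_mod_cast hn0
  linarith

open Classical in
/-- **the lower bound for a memory of `n ^ 2 + r` bits** -/
theorem main (n w r : ℕ) (hn : 10 ^ 4 ≤ n) (hw : 1 ≤ w) (hr : 32 * (r + w) ≤ n ^ 2)
    {Ω A W : Type} [Fintype Ω] [Fintype A] [Fintype W] [Nonempty W]
    (hW : Fintype.card W ≤ 2 ^ w) (hA : Fintype.card A * w ≤ n ^ 2 + r)
    (alg : Alg n Ω A W) (μ : Ω → ℝ) (hμ : IsProb μ)
    (herr : avg (fun M vs => ∑ ω, μ ω *
      (if ∃ q, alg.answer ω M vs q ≠ M.mulVec (vs q) then (1 : ℝ) else 0)) ≤ 1 / 3) :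
    (n : ℝ) ^ 3 ≤ 10 ^ 6 * (√(w * (r + w)) * Real.logb 2 (r + 2)) *
      avg (fun M vs => ∑ ω, μ ω * ∑ q, ((alg.probes ω M vs q).length : ℝ)) := by
  have hmem := memory_ge hn hW alg μ hμ herr
  obtain ⟨a, ha⟩ : ∃ a, a = Fintype.card A := ⟨_, rfl⟩
  rw [← ha] at hmem hA
  have hn0 : 0 < n := by omega
  have hnn : n ^ 2 = n * n := sq n
  have hnR : (10 : ℝ) ^ 4 ≤ n := by exact_mod_cast hn
  -- the size of the blocks
  obtain ⟨k, hk⟩ : ∃ k, k = 2 * (r + 10) / w + 1 := ⟨_, rfl⟩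
  have hk1 : 1 ≤ k := by rw [hk]; exact Nat.le_add_left 1 _
  have hkw1 : 2 * (r + 10) < k * w := by
    have h1 := Nat.lt_div_mul_add (a := 2 * (r + 10)) hw
    have h2 : k * w = 2 * (r + 10) / w * w + w := by rw [hk]; ring
    omega
  have hkw2 : k * w ≤ 2 * (r + 10) + w := by
    have h1 := Nat.div_mul_le_self (2 * (r + 10)) w
    have h2 : k * w = 2 * (r + 10) / w * w + w := by rw [hk]; ring
    omega
  have hk2 : k ≤ 2 * r + 21 := by
    have := Nat.div_le_self (2 * (r + 10)) w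
    omega
  have hn2 : 10 ^ 8 ≤ n ^ 2 := by
    calc 10 ^ 8 = (10 ^ 4) ^ 2 := by norm_num
      _ ≤ n ^ 2 := Nat.pow_le_pow_left hn 2
  have hkn : k ≤ n ^ 2 := by omega
  obtain ⟨L, hL⟩ : ∃ L, L = Nat.clog 2 (k + 1) := ⟨_, rfl⟩
  have hL1 : 1 ≤ L := by
    rw [hL]
    exact Nat.clog_pos (by norm_num) (by omega)
  have hkL : k + 1 ≤ 2 ^ L := by rw [hL]; exact Nat.le_pow_clog (by norm_num) _
  have hkR : (1 : ℝ) ≤ k := by exact_mod_cast hk1
  have hLR : (1 : ℝ) ≤ L := by exact_mod_cast hL1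
  obtain ⟨s, hs⟩ : ∃ s, s = √(k : ℝ) := ⟨_, rfl⟩
  have hs2 : s ^ 2 = k := by rw [hs]; exact Real.sq_sqrt (by linarith)
  have hs1 : 1 ≤ s := by rw [hs]; exact Real.one_le_sqrt.2 hkR
  have hsk : s ≤ k := by rw [← hs2]; nlinarith
  have hsn : s ≤ n := by
    rw [hs]
    apply Real.sqrt_le_iff.2
    refine ⟨by positivity, by exact_mod_cast hkn⟩
  obtain ⟨t, ht⟩ : ∃ t : ℝ, t = s / (20000 * L) := ⟨_, rfl⟩
  have ht0 : 0 < t := by rw [ht]; positivity
  have htL : t * L = s / 20000 := by rw [ht]; field_simp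
  have hts : t ≤ s / 20000 := by
    rw [← htL]
    nlinarith
  obtain ⟨E, hE⟩ : ∃ E, E = ⌊20 * t⌋₊ := ⟨_, rfl⟩
  have hE1 : (E : ℝ) ≤ 20 * t := by rw [hE]; exact Nat.floor_le (by positivity)
  have hE2 : 20 * t < E + 1 := by rw [hE]; exact Nat.lt_floor_add_one _
  obtain ⟨B, hB⟩ : ∃ B, B = 10 + E * L := ⟨_, rfl⟩
  have hEL : (E : ℝ) * L ≤ s / 1000 := by
    calc (E : ℝ) * L ≤ 20 * t * L := by gcongr
      _ = 20 * (t * L) := by ring
      _ = _ := by rw [htL]; ring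
  have hBR : (B : ℝ) ≤ 10 + s / 1000 := by rw [hB]; push_cast; linarith
  obtain ⟨D, hD⟩ : ∃ D, D = ⌊800 * t * B⌋₊ := ⟨_, rfl⟩
  have hD1 : (D : ℝ) ≤ 800 * t * B := by rw [hD]; exact Nat.floor_le (by positivity)
  have hD2 : 800 * t * B < D + 1 := by rw [hD]; exact Nat.lt_floor_add_one _
  have h500 : 500 * B ≤ n := by
    have h1 : (500 : ℝ) * B ≤ n := by linarith
    exact_mod_cast h1
  have hDE : 2 * (E + D) ≤ k := by
    have h1 : (D : ℝ) ≤ 800 * (s / 20000) * (10 + s / 1000) := by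
      refine hD1.trans ?_
      gcongr
    have h2 : (E : ℝ) ≤ 20 * (s / 20000) := by linarith
    have h3 : 800 * (s / 20000) * (10 + s / 1000) = 2 / 5 * s + s ^ 2 / 25000 := by ring
    rw [h3, hs2] at h1
    have h4 : (2 : ℝ) * (E + D) ≤ k := by linarith
    exact_mod_cast h4
  have hBp : 640 * (k + 1) ^ E ≤ 2 ^ B := by
    calc 640 * (k + 1) ^ E ≤ 2 ^ 10 * (2 ^ L) ^ E := by gcongr; norm_num
      _ = 2 ^ B := by rw [hB, pow_add, ← pow_mul, mul_comm L E]
  obtain ⟨K, hK⟩ : ∃ K : ℝ, K = 1 / (20 * t) := ⟨_, rfl⟩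
  have hK0 : 0 < K := by rw [hK]; positivity
  have hDK : 40 * (B : ℝ) ≤ K * (D + 1) := by
    rw [hK, one_div, inv_mul_eq_div, le_div_iff₀ (by positivity)]
    calc 40 * (B : ℝ) * (20 * t) = 800 * t * B := by ring
      _ ≤ _ := hD2.le
  obtain ⟨T, hT⟩ : ∃ T : ℝ, T = avg (fun M vs => ∑ ω, μ ω *
    ∑ q, ((alg.probes ω M vs q).length : ℝ)) := ⟨_, rfl⟩
  rw [← hT]
  -- every block
  have hblock : ∀ J : Finset A, J.card = k → 7 / 5 * n * t ≤ avg (fun M vs => ∑ ω, μ ω *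
      ∑ q, cst alg J ω M vs q) := by
    intro J hJ
    have hka : k ≤ a := by rw [ha, ← hJ]; exact card_le_univ J
    have hsz : 4000 * Fintype.card W ^ (Fintype.card A - J.card + E + D) < 7 * 2 ^ (n * n) := by
      rw [hJ, ← ha]
      have h1 : w * (a - k + E + D) + 10 ≤ n * n := by
        obtain ⟨x, hx⟩ := Nat.exists_eq_add_of_le hka
        obtain ⟨y, hy⟩ := Nat.exists_eq_add_of_le hDE
        have h2 : a - k + E + D = x + (E + D) := by omega
        have h3 : a * w = k * w + w * x := by rw [hx]; ring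
        have h4 : k * w = 2 * (w * (E + D)) + w * y := by
          calc k * w = (2 * (E + D) + y) * w := by rw [← hy]
            _ = _ := by ring
        rw [h2, Nat.mul_add, ← hnn]
        omega
      calc 4000 * Fintype.card W ^ (a - k + E + D) ≤ 4000 * (2 ^ w) ^ (a - k + E + D) := by gcongr
        _ = 4000 * 2 ^ (w * (a - k + E + D)) := by rw [← pow_mul]
        _ < 7 * 2 ^ 10 * 2 ^ (w * (a - k + E + D)) := by
            apply Nat.mul_lt_mul_of_pos_right (by norm_num) (by positivity)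
        _ = 7 * 2 ^ (w * (a - k + E + D) + 10) := by rw [pow_add]; ring
        _ ≤ 7 * 2 ^ (n * n) := by
            gcongr
            norm_num
    have hb := block alg μ hμ J K hK0 B D E hn0 h500 (by rw [hJ]; exact hBp) hDK hsz herr
    obtain ⟨c, hc⟩ : ∃ c : ℝ, c = avg (fun M vs => ∑ ω, μ ω * ∑ q, cst alg J ω M vs q) :=
      ⟨_, rfl⟩
    rw [← hc] at hb ⊢
    have hc0 : 0 ≤ c := by
      rw [hc]
      apply avg_nonneg
      intro M vs
      apply sum_nonneg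
      intro ω _
      apply mul_nonneg (hμ.nonneg ω)
      apply sum_nonneg
      intro q _
      exact Nat.cast_nonneg _
    have h1 : K + 4 / 5 / ((E : ℝ) + 1) ≤ 9 / 100 / t := by
      have h2 : 4 / 5 / ((E : ℝ) + 1) ≤ 4 / 5 / (20 * t) := by gcongr
      have h3 : K + 4 / 5 / (20 * t) = 9 / 100 / t := by
        rw [hK]; field_simp; norm_num
      linarith
    have h2 : 19 / 150 * (n : ℝ) ≤ 9 / 100 / t * c :=
      hb.trans (mul_le_mul_of_nonneg_right h1 hc0)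
    have h3 : 19 / 150 * (n : ℝ) * t ≤ 9 / 100 * c := by
      calc 19 / 150 * (n : ℝ) * t ≤ 9 / 100 / t * c * t := by gcongr
        _ = 9 / 100 * c := by field_simp
    have h4 : 0 ≤ (n : ℝ) * t := by positivity
    nlinarith
  -- all blocks
  have htot := total_ge alg μ hμ k hk1 (7 / 5 * n * t) hblock
  rw [← hT, ← ha] at htot
  obtain ⟨m, hm⟩ : ∃ m, m = a / k := ⟨_, rfl⟩
  rw [← hm] at htot
  have hmk : (92 / 100 : ℝ) * n ^ 2 ≤ m * (k * w) := by
    have h1 : a < k * (m + 1) := by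
      rw [hm]
      exact Nat.lt_mul_div_succ a hk1
    have h2 : a * w ≤ k * (m + 1) * w := Nat.mul_le_mul_right w h1.le
    have h3 : n * n ≤ k * (m + 1) * w + 10 := by
      calc n * n ≤ w * a + 10 := hmem
        _ = a * w + 10 := by ring
        _ ≤ _ := by omega
    have h4 : (n : ℝ) ^ 2 ≤ m * (k * w) + k * w + 10 := by
      have : ((n * n : ℕ) : ℝ) ≤ ((k * (m + 1) * w + 10 : ℕ) : ℝ) := by exact_mod_cast h3
      push_cast at this
      nlinarith
    have h5 : (k : ℝ) * w ≤ 2 * (r + 10) + w := by exact_mod_cast hkw2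
    have h6 : (32 : ℝ) * (r + w) ≤ n ^ 2 := by exact_mod_cast hr
    have h7 : (10 : ℝ) ^ 8 ≤ n ^ 2 := by exact_mod_cast hn2
    have h8 : (0 : ℝ) ≤ r := Nat.cast_nonneg _
    have h9 : (0 : ℝ) ≤ w := Nat.cast_nonneg _
    linarith
  have hT0 : 0 ≤ T := by
    rw [hT]
    apply avg_nonneg
    intro M vs
    apply sum_nonneg
    intro ω _
    apply mul_nonneg (hμ.nonneg ω)
    apply sum_nonneg
    intro q _
    exact Nat.cast_nonneg _
  have hwR : (1 : ℝ) ≤ w := by exact_mod_cast hw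
  have hrR : (0 : ℝ) ≤ r := Nat.cast_nonneg _
  -- `n ^ 3 * s ≤ ...`
  have hmain : (92 / 100 : ℝ) * (7 / 5) * n ^ 3 * t ≤ k * w * T := by
    calc (92 / 100 : ℝ) * (7 / 5) * n ^ 3 * t = (92 / 100 * n ^ 2) * (7 / 5 * n * t) := by ring
      _ ≤ (m * (k * w)) * (7 / 5 * n * t) := by gcongr
      _ = k * w * (m * (7 / 5 * n * t)) := by ring
      _ ≤ k * w * T := by gcongr
  have hmain2 : (n : ℝ) ^ 3 ≤ 15530 * L * (w * s) * T := by
    have h1 : (92 / 100 : ℝ) * (7 / 5) * n ^ 3 * (t * L) ≤ k * w * T * L := by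
      calc (92 / 100 : ℝ) * (7 / 5) * n ^ 3 * (t * L) =
            (92 / 100 : ℝ) * (7 / 5) * n ^ 3 * t * L := by ring
        _ ≤ _ := by gcongr
    rw [htL, ← hs2] at h1
    have hs0 : 0 < s := by linarith
    have h2 : s * ((92 / 100 : ℝ) * (7 / 5) / 20000 * n ^ 3) ≤ s * (L * (w * s) * T) := by
      calc s * ((92 / 100 : ℝ) * (7 / 5) / 20000 * n ^ 3) =
            (92 / 100 : ℝ) * (7 / 5) * n ^ 3 * (s / 20000) := by ring
        _ ≤ s ^ 2 * w * T * L := h1
        _ = _ := by ring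
    have h3 := le_of_mul_le_mul_left h2 hs0
    have h4 : 0 ≤ L * (w * s) * T := by positivity
    linarith
  have hws : (w : ℝ) * s ≤ 5 * √(w * (r + w)) := by
    have h1 : (w : ℝ) * s ≤ √(25 * (w * (r + w))) := by
      apply Real.le_sqrt_of_sq_le
      have h5 : (k : ℝ) * w ≤ 2 * (r + 10) + w := by exact_mod_cast hkw2
      calc ((w : ℝ) * s) ^ 2 = (w : ℝ) * (s ^ 2 * (w : ℝ)) := by ring
        _ = (w : ℝ) * ((k : ℝ) * (w : ℝ)) := by rw [hs2]
        _ ≤ (w : ℝ) * (2 * ((r : ℝ) + 10) + (w : ℝ)) := by gcongr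
        _ ≤ (w : ℝ) * (25 * ((r : ℝ) + (w : ℝ))) := by
            apply mul_le_mul_of_nonneg_left _ (by linarith)
            linarith
        _ = _ := by ring
    have h2 : √(25 * ((w : ℝ) * (r + w))) = 5 * √(w * (r + w)) := by
      rw [Real.sqrt_mul (by norm_num)]
      congr 1
      rw [show (25 : ℝ) = 5 ^ 2 by norm_num]
      exact Real.sqrt_sq (by norm_num)
    rwa [h2] at h1
  have hlog1 : (1 : ℝ) ≤ Real.logb 2 (r + 2) := by
    rw [Real.le_logb_iff_rpow_le (by norm_num) (by positivity), Real.rpow_one]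
    linarith
  have hLlog : (L : ℝ) ≤ 6 * Real.logb 2 (r + 2) := by
    have h1 : 2 ^ (Nat.clog 2 (k + 1)).pred < k + 1 :=
      Nat.pow_pred_clog_lt_self (by norm_num) (by omega)
    rw [← hL] at h1
    have h2 : k + 1 ≤ 16 * (r + 2) := by omega
    have h3 : ((2 : ℝ) ^ (L.pred)) ≤ 16 * (r + 2) := by exact_mod_cast (h1.le.trans h2)
    have h4 : ((L.pred : ℕ) : ℝ) ≤ Real.logb 2 (16 * (r + 2)) := by
      rw [Real.le_logb_iff_rpow_le (by norm_num) (by positivity), Real.rpow_natCast]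
      exact h3
    have h5 : Real.logb 2 (16 * ((r : ℝ) + 2)) = 4 + Real.logb 2 (r + 2) := by
      rw [Real.logb_mul (by norm_num) (by positivity)]
      congr 1
      rw [show (16 : ℝ) = 2 ^ (4 : ℝ) by norm_num, Real.logb_rpow (by norm_num) (by norm_num)]
    have h6 : ((L.pred : ℕ) : ℝ) = L - 1 := by
      rw [Nat.pred_eq_sub_one, Nat.cast_sub hL1, Nat.cast_one]
    rw [h5, h6] at h4
    linarith
  have hsq0 : 0 ≤ √((w : ℝ) * (r + w)) := Real.sqrt_nonneg _
  calc (n : ℝ) ^ 3 ≤ 15530 * L * (w * s) * T := hmain2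
    _ ≤ 15530 * (6 * Real.logb 2 (r + 2)) * (5 * √(w * (r + w))) * T := by gcongr
    _ = 465900 * (√(w * (r + w)) * Real.logb 2 (r + 2)) * T := by ring
    _ ≤ 10 ^ 6 * (√(w * (r + w)) * Real.logb 2 (r + 2)) * T := by
        gcongr
        norm_num

end Pool.Agent.K9h49.SM
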