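import Pool.Agent.K9h49.SM.Vol

set_option autoImplicit false

/-!
# One rectangle: many matrices, many vectors, the same probes
-/

namespace Pool.Agent.K9h49.SM

open Finset Pool.Agent.H699R2.OMV

/-- The query algorithm for every vector: the set of probed cells and the answer, as functions of
the content of the memory; both depend only on the contents of the probed cells. -/
structure Query (n : ℕ) (A W : Type) [DecidableEq A] where
  C : Vec n → (A → W) → Finset A
  ans : Vec n → (A → W) → Vec n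
  cert : ∀ v x x', (∀ a ∈ C v x, x' a = x a) → C v x' = C v x ∧ ans v x' = ans v x

variable {n : ℕ} {A W : Type} [Fintype A] [DecidableEq A] [Fintype W] [DecidableEq W]

/-- one if the answer is wrong, zero otherwise -/
def wr (Q : Query n A W) (X : Mat n → A → W) (M : Mat n) (v : Vec n) : ℝ :=
  if Q.ans v (X M) = M.mulVec v then 0 else 1

/-- number of probed cells in `J` -/
def cost (Q : Query n A W) (X : Mat n → A → W) (J : Finset A) (M : Mat n) (v : Vec n) : ℝ :=
  ((Q.C v (X M) ∩ J).card : ℝ)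

lemma wr_nonneg (Q : Query n A W) (X : Mat n → A → W) (M : Mat n) (v : Vec n) : 0 ≤ wr Q X M v := by
  unfold wr; split_ifs <;> norm_num

lemma cost_nonneg (Q : Query n A W) (X : Mat n → A → W) (J : Finset A) (M : Mat n) (v : Vec n) :
    0 ≤ cost Q X J M v := Nat.cast_nonneg _

lemma markov_count {ι : Type*} [DecidableEq ι] (s : Finset ι) (g : ι → ℝ) (hg : ∀ i ∈ s, 0 ≤ g i)
    (c : ℝ) (p : ι → Prop) [DecidablePred p] (hp : ∀ i ∈ s, p i → c ≤ g i) :
    c * ((s.filter p).card : ℝ) ≤ ∑ i ∈ s, g i := by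
  calc c * ((s.filter p).card : ℝ) = ∑ _i ∈ s.filter p, c := by
        rw [sum_const, nsmul_eq_mul]; ring
    _ ≤ ∑ i ∈ s.filter p, g i := by
        apply sum_le_sum
        intro i hi
        rw [mem_filter] at hi
        exact hp i hi.1 hi.2
    _ ≤ _ := sum_le_sum_of_subset_of_nonneg (filter_subset _ _) (fun i hi _ => hg i hi)

/-- **the rectangle lemma** -/
lemma rect [Nonempty W] (Q : Query n A W) (X : Mat n → A → W) (J : Finset A)
    (L : Finset (Mat n)) (Vs : Finset (Vec n)) (K : ℝ) (hK : 0 < K) (B D : ℕ) (hn : 0 < n)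
    (hout : ∀ M ∈ L, ∀ M' ∈ L, ∀ a, a ∉ J → X M a = X M' a)
    (hans : ∀ v ∈ Vs, ∀ M ∈ L, ∀ M' ∈ L, Q.ans v (X M) = Q.ans v (X M'))
    (h500 : 500 * B ≤ n) (hB : 16 * 2 ^ n ≤ Vs.card * 2 ^ B) (hD : 40 * (B : ℝ) ≤ K * (D + 1))
    (h1 : (n : ℝ) * ∑ v ∈ Vs, ∑ M ∈ L, wr Q X M v < 4 / 5 * L.card * Vs.card)
    (h2 : ∑ v : Vec n, ((n : ℝ) / 10 * ∑ M ∈ L, wr Q X M v + K * ∑ M ∈ L, cost Q X J M v) <
      4 / 5 * L.card * 2 ^ n) :
    7 * L.card ≤ 100 * Fintype.card W ^ D := by
  classical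
  obtain ⟨err, herr⟩ : ∃ err : Vec n → ℝ, err = fun v => ∑ M ∈ L, wr Q X M v := ⟨_, rfl⟩
  have herr0 : ∀ v, 0 ≤ err v := by
    intro v; rw [herr]; exact sum_nonneg (fun M _ => wr_nonneg Q X M v)
  obtain ⟨l, hl⟩ : ∃ l : ℝ, l = L.card := ⟨_, rfl⟩
  have hl0 : 0 ≤ l := by rw [hl]; exact Nat.cast_nonneg _
  have hn' : (0 : ℝ) < n := by exact_mod_cast hn
  have h1' : (n : ℝ) * ∑ v ∈ Vs, err v < 4 / 5 * l * Vs.card := by rw [herr, hl]; exact h1
  have hlpos : 0 < l := by
    rcases hl0.lt_or_eq with h | h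
    · exact h
    · exfalso
      rw [← h] at h1'
      have h3 : 0 ≤ (n : ℝ) * ∑ v ∈ Vs, err v := mul_nonneg hn'.le (sum_nonneg fun v _ => herr0 v)
      linarith
  -- the vectors of `Vs` with few errors
  obtain ⟨Vg, hVg⟩ : ∃ Vg, Vg = Vs.filter (fun v => (n : ℝ) * err v < 64 / 75 * l) := ⟨_, rfl⟩
  have hVgc : (Vs.card : ℝ) ≤ 16 * Vg.card := by
    by_contra hcon
    push Not at hcon
    have h3 : 64 / 75 * l * ((Vs.filter (fun v => ¬ (n : ℝ) * err v < 64 / 75 * l)).card : ℝ) ≤
        ∑ v ∈ Vs, (n : ℝ) * err v := by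
      apply markov_count
      · intro v _; exact mul_nonneg hn'.le (herr0 v)
      · intro v _ hv; exact not_lt.1 hv
    rw [← mul_sum] at h3
    have h4 : (Vs.filter (fun v => (n : ℝ) * err v < 64 / 75 * l)).card +
        (Vs.filter (fun v => ¬ (n : ℝ) * err v < 64 / 75 * l)).card = Vs.card :=
      Finset.card_filter_add_card_filter_not _
    have h5 : (Vg.card : ℝ) +
        ((Vs.filter (fun v => ¬ (n : ℝ) * err v < 64 / 75 * l)).card : ℝ) = Vs.card := by
      rw [hVg]; exact_mod_cast h4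
    have h6 : 15 / 16 * (Vs.card : ℝ) <
        ((Vs.filter (fun v => ¬ (n : ℝ) * err v < 64 / 75 * l)).card : ℝ) := by linarith
    have h7 := mul_lt_mul_of_pos_left h6 (show (0 : ℝ) < 64 / 75 * l by positivity)
    have h8 : 64 / 75 * l * (15 / 16 * (Vs.card : ℝ)) = 4 / 5 * l * Vs.card := by ring
    linarith
  -- the vectors with few errors and little cost
  obtain ⟨f, hf⟩ : ∃ f : Vec n → ℝ, f = fun v => (n : ℝ) / 10 * ∑ M ∈ L, wr Q X M v +
    K * ∑ M ∈ L, cost Q X J M v := ⟨_, rfl⟩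
  have hcost0 : ∀ v, 0 ≤ ∑ M ∈ L, cost Q X J M v := fun v =>
    sum_nonneg (fun M _ => cost_nonneg Q X J M v)
  have hf0 : ∀ v, 0 ≤ f v := by
    intro v
    rw [hf]
    have h3 : 0 ≤ (n : ℝ) / 10 * ∑ M ∈ L, wr Q X M v :=
      mul_nonneg (by positivity) (sum_nonneg (fun M _ => wr_nonneg Q X M v))
    have h4 := mul_nonneg hK.le (hcost0 v)
    simp only
    linarith
  obtain ⟨H, hH⟩ : ∃ H, H = (univ : Finset (Vec n)).filter (fun v => f v < 8 / 5 * l) := ⟨_, rfl⟩
  have hcardV : ((univ : Finset (Vec n)).card : ℝ) = 2 ^ n := by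
    rw [card_univ]
    simp [Vec, ZMod.card]
  have hHc : (2 : ℝ) ^ n < 2 * H.card := by
    by_contra hcon
    push Not at hcon
    have h3 : 8 / 5 * l * (((univ : Finset (Vec n)).filter (fun v => ¬ f v < 8 / 5 * l)).card : ℝ) ≤
        ∑ v, f v := by
      apply markov_count
      · intro v _; exact hf0 v
      · intro v _ hv; exact not_lt.1 hv
    have h4 : ((univ : Finset (Vec n)).filter (fun v => f v < 8 / 5 * l)).card +
        ((univ : Finset (Vec n)).filter (fun v => ¬ f v < 8 / 5 * l)).card =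
        (univ : Finset (Vec n)).card :=
      Finset.card_filter_add_card_filter_not _
    have h5 : (H.card : ℝ) +
        (((univ : Finset (Vec n)).filter (fun v => ¬ f v < 8 / 5 * l)).card : ℝ) = 2 ^ n := by
      rw [hH, ← hcardV]; exact_mod_cast h4
    have h6 : (2 : ℝ) ^ n / 2 ≤
        (((univ : Finset (Vec n)).filter (fun v => ¬ f v < 8 / 5 * l)).card : ℝ) := by linarith
    have h7 := mul_le_mul_of_nonneg_left h6 (show (0 : ℝ) ≤ 8 / 5 * l by positivity)
    have h8 : ∑ v, f v < 4 / 5 * l * 2 ^ n := by rw [hf, hl]; exact h2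
    have h9 : 8 / 5 * l * ((2 : ℝ) ^ n / 2) = 4 / 5 * l * 2 ^ n := by ring
    linarith
  have hHtop : Submodule.span (ZMod 2) (H : Set (Vec n)) = ⊤ := by
    apply span_eq_top
    exact_mod_cast hHc
  -- the basis
  obtain ⟨b1, hb1s, -, hb1sp, hb1li⟩ := exists_linearIndepOn_id_extension
    (linearIndependent_empty (ZMod 2) (Vec n)) (Set.empty_subset (Vg : Set (Vec n)))
  obtain ⟨b2, hb2s, hb12, hb2sp, hb2li⟩ := exists_linearIndepOn_id_extension hb1li
    (Set.subset_union_left : b1 ⊆ b1 ∪ (H : Set (Vec n)))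
  obtain ⟨G, hG⟩ : ∃ G : Finset (Vec n), G = b1.toFinset := ⟨_, rfl⟩
  obtain ⟨G2, hG2⟩ : ∃ G2 : Finset (Vec n), G2 = b2.toFinset := ⟨_, rfl⟩
  have hGc : (G : Set (Vec n)) = b1 := by rw [hG, Set.coe_toFinset]
  have hG2c : (G2 : Set (Vec n)) = b2 := by rw [hG2, Set.coe_toFinset]
  have hG2n : G2.card ≤ n := by
    have h3 : LinearIndependent (ZMod 2) (fun v : G2 => (v : Vec n)) := by
      have h4 : LinearIndepOn (ZMod 2) id (G2 : Set (Vec n)) := by rw [hG2c]; exact hb2li
      exact h4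
    have h5 := h3.fintype_card_le_finrank
    simpa using h5
  have hGG2 : G ⊆ G2 := by
    intro v hv
    have : v ∈ (G2 : Set (Vec n)) := by rw [hG2c]; apply hb12; rw [← hGc]; exact hv
    exact this
  have hGVg : ∀ v ∈ G, v ∈ Vg := by
    intro v hv
    have : v ∈ (Vg : Set (Vec n)) := by apply hb1s; rw [← hGc]; exact hv
    exact this
  have hG2H : ∀ v ∈ G2 \ G, v ∈ H := by
    intro v hv
    rw [mem_sdiff] at hv
    have h3 : v ∈ b1 ∪ (H : Set (Vec n)) := by apply hb2s; rw [← hG2c]; exact hv.1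
    rcases h3 with h3 | h3
    · exfalso
      apply hv.2
      have : v ∈ (G : Set (Vec n)) := by rw [hGc]; exact h3
      exact this
    · exact h3
  have hVg2 : Vg.card ≤ 2 ^ G.card := by
    apply card_span_le
    rw [hGc]
    exact hb1sp
  have hGB : n ≤ G.card + B := by
    have h3 : (16 : ℝ) * 2 ^ n ≤ Vs.card * 2 ^ B := by exact_mod_cast hB
    have h4 : (Vg.card : ℝ) ≤ 2 ^ G.card := by exact_mod_cast hVg2
    have h5 : (16 : ℝ) * 2 ^ n ≤ 16 * 2 ^ (G.card + B) := by
      calc (16 : ℝ) * 2 ^ n ≤ Vs.card * 2 ^ B := h3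
        _ ≤ (16 * Vg.card) * 2 ^ B := by gcongr
        _ ≤ (16 * 2 ^ G.card) * 2 ^ B := by gcongr
        _ = _ := by rw [pow_add]; ring
    have h6 : (2 : ℝ) ^ n ≤ 2 ^ (G.card + B) := by linarith
    exact (pow_le_pow_iff_right₀ (by norm_num : (1 : ℝ) < 2)).1 h6
  have hG'B : (G2 \ G).card ≤ B := by
    rw [card_sdiff_of_subset hGG2]
    omega
  have hG2top : Submodule.span (ZMod 2) (G2 : Set (Vec n)) = ⊤ := by
    rw [hG2c, eq_top_iff, ← hHtop, Submodule.span_le]
    exact (Set.subset_union_right).trans hb2sp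
  -- the matrices without errors on the basis and with little cost
  obtain ⟨tot, htot⟩ : ∃ tot : Mat n → ℕ,
    tot = fun M => ∑ u ∈ G2 \ G, (Q.C u (X M) ∩ J).card := ⟨_, rfl⟩
  obtain ⟨L2, hL2⟩ : ∃ L2, L2 = L.filter (fun M => (∀ v ∈ G2, Q.ans v (X M) = M.mulVec v) ∧
    tot M ≤ D) := ⟨_, rfl⟩
  have hbad : (l : ℝ) ≤ L2.card + ∑ v ∈ G, err v + ∑ v ∈ G2 \ G, err v +
      ((L.filter (fun M => ¬ tot M ≤ D)).card : ℝ) := by
    have h3 : ∀ M ∈ L, (1 : ℝ) ≤ (if (∀ v ∈ G2, Q.ans v (X M) = M.mulVec v) ∧ tot M ≤ D then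
        (1 : ℝ) else 0) + ∑ v ∈ G, wr Q X M v + ∑ v ∈ G2 \ G, wr Q X M v +
        (if ¬ tot M ≤ D then (1 : ℝ) else 0) := by
      intro M _
      have h4 : 0 ≤ ∑ v ∈ G, wr Q X M v := sum_nonneg fun v _ => wr_nonneg Q X M v
      have h5 : 0 ≤ ∑ v ∈ G2 \ G, wr Q X M v := sum_nonneg fun v _ => wr_nonneg Q X M v
      by_cases h6 : tot M ≤ D
      · by_cases h7 : ∀ v ∈ G2, Q.ans v (X M) = M.mulVec v
        · rw [if_pos ⟨h7, h6⟩, if_neg (not_not.2 h6)]
          linarith
        · rw [if_neg (fun h => h7 h.1), if_neg (not_not.2 h6)]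
          push Not at h7
          obtain ⟨v, hv, hvw⟩ := h7
          have h8 : wr Q X M v = 1 := by unfold wr; rw [if_neg hvw]
          by_cases h9 : v ∈ G
          · have h10 : wr Q X M v ≤ ∑ v ∈ G, wr Q X M v :=
              single_le_sum (f := fun v => wr Q X M v) (fun v _ => wr_nonneg Q X M v) h9
            linarith
          · have h10 : wr Q X M v ≤ ∑ v ∈ G2 \ G, wr Q X M v :=
              single_le_sum (f := fun v => wr Q X M v) (fun v _ => wr_nonneg Q X M v)
                (mem_sdiff.2 ⟨hv, h9⟩)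
            linarith
      · rw [if_neg (fun h => h6 h.2), if_pos h6]
        linarith
    have h4 := sum_le_sum h3
    rw [sum_const, nsmul_eq_mul, mul_one, sum_add_distrib, sum_add_distrib, sum_add_distrib,
      sum_boole, sum_boole] at h4
    have h5 : ∑ M ∈ L, ∑ v ∈ G, wr Q X M v = ∑ v ∈ G, err v := by
      rw [sum_comm, herr]
    have h6 : ∑ M ∈ L, ∑ v ∈ G2 \ G, wr Q X M v = ∑ v ∈ G2 \ G, err v := by
      rw [sum_comm, herr]
    rw [h5, h6] at h4
    rw [hl, hL2]
    exact h4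
  have hE1 : ∑ v ∈ G, err v ≤ 64 / 75 * l := by
    have h3 : ∀ v ∈ G, err v ≤ 64 / 75 * l / n := by
      intro v hv
      have := hGVg v hv
      rw [hVg, mem_filter] at this
      rw [le_div_iff₀ hn']
      linarith [this.2]
    calc ∑ v ∈ G, err v ≤ ∑ _v ∈ G, 64 / 75 * l / n := sum_le_sum h3
      _ = G.card * (64 / 75 * l / n) := by rw [sum_const, nsmul_eq_mul]
      _ ≤ n * (64 / 75 * l / n) := by
          have h4 : (G.card : ℝ) ≤ n := by exact_mod_cast (card_le_card hGG2).trans hG2n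
          gcongr
      _ = _ := by field_simp
  have hE2 : ∑ v ∈ G2 \ G, err v ≤ 16 / 500 * l := by
    have h3 : ∀ v ∈ G2 \ G, err v ≤ 16 * l / n := by
      intro v hv
      have := hG2H v hv
      rw [hH, mem_filter] at this
      have h4 := this.2
      rw [hf] at h4
      simp only at h4
      have h5 := mul_nonneg hK.le (hcost0 v)
      have h6 : (n : ℝ) / 10 * err v < 8 / 5 * l := by
        rw [herr]; simp only; linarith
      rw [le_div_iff₀ hn']
      linarith
    calc ∑ v ∈ G2 \ G, err v ≤ ∑ _v ∈ G2 \ G, 16 * l / n := sum_le_sum h3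
      _ = (G2 \ G).card * (16 * l / n) := by rw [sum_const, nsmul_eq_mul]
      _ ≤ (n / 500) * (16 * l / n) := by
          have h4 : ((G2 \ G).card : ℝ) ≤ n / 500 := by
            have h5 : ((G2 \ G).card : ℝ) ≤ B := by exact_mod_cast hG'B
            have h6 : (500 : ℝ) * B ≤ n := by exact_mod_cast h500
            linarith
          gcongr
      _ = _ := by field_simp
  have hE3 : ((L.filter (fun M => ¬ tot M ≤ D)).card : ℝ) ≤ 1 / 25 * l := by
    have h3 : (K * (D + 1)) * ((L.filter (fun M => ¬ tot M ≤ D)).card : ℝ) ≤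
        ∑ M ∈ L, K * (tot M : ℝ) := by
      apply markov_count
      · intro M _; positivity
      · intro M _ hM
        have h4 : D + 1 ≤ tot M := by omega
        have h5 : ((D : ℝ) + 1) ≤ tot M := by exact_mod_cast h4
        gcongr
    have h4 : ∑ M ∈ L, K * (tot M : ℝ) = ∑ u ∈ G2 \ G, K * ∑ M ∈ L, cost Q X J M u := by
      rw [← mul_sum, ← mul_sum]
      congr 1
      rw [sum_comm]
      apply sum_congr rfl
      intro M _
      rw [htot]
      push_cast
      rfl
    have h5 : ∑ u ∈ G2 \ G, K * ∑ M ∈ L, cost Q X J M u ≤ B * (8 / 5 * l) := by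
      calc ∑ u ∈ G2 \ G, K * ∑ M ∈ L, cost Q X J M u ≤ ∑ _u ∈ G2 \ G, 8 / 5 * l := by
            apply sum_le_sum
            intro u hu
            have := hG2H u hu
            rw [hH, mem_filter] at this
            have h4 := this.2
            rw [hf] at h4
            simp only at h4
            have h5 : 0 ≤ (n : ℝ) / 10 * ∑ M ∈ L, wr Q X M u :=
              mul_nonneg (by positivity) (sum_nonneg (fun M _ => wr_nonneg Q X M u))
            linarith
        _ = (G2 \ G).card * (8 / 5 * l) := by rw [sum_const, nsmul_eq_mul]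
        _ ≤ _ := by
            have h5 : ((G2 \ G).card : ℝ) ≤ B := by exact_mod_cast hG'B
            gcongr
    have h6 : (0 : ℝ) < K * (D + 1) := by positivity
    rw [h4] at h3
    have h7 : (K * (D + 1)) * ((L.filter (fun M => ¬ tot M ≤ D)).card : ℝ) ≤
        (K * (D + 1)) * (1 / 25 * l) := by
      calc _ ≤ B * (8 / 5 * l) := h3.trans h5
        _ = (40 * B) * (1 / 25 * l) := by ring
        _ ≤ _ := by gcongr
    exact le_of_mul_le_mul_left h7 h6
  have hL2c : 7 / 100 * l ≤ L2.card := by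
    have : (64 : ℝ) / 75 + 16 / 500 + 1 / 25 ≤ 93 / 100 := by norm_num
    nlinarith
  -- counting by volume
  have hvol : L2.card ≤ Fintype.card W ^ D := by
    apply volume (κ := Vec n × A) L2 (fun M p => X M p.2)
      (fun M => (G2 \ G).biUnion (fun u => (Q.C u (X M) ∩ J).image (fun a => (u, a))))
    · intro M hM
      rw [hL2, mem_filter] at hM
      refine le_trans card_biUnion_le ?_
      refine le_trans (sum_le_sum (fun u _ => card_image_le)) ?_
      have h3 := hM.2.2
      rw [htot] at h3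
      exact h3
    · intro M hM M' hM' ξ hξ hξ'
      rw [hL2, mem_filter] at hM hM'
      apply mat_ext_span (G2 : Set (Vec n)) hG2top
      intro v hv
      have hv : v ∈ G2 := hv
      rw [← hM.2.1 v hv, ← hM'.2.1 v hv]
      by_cases hvG : v ∈ G
      · have h3 := hGVg v hvG
        rw [hVg, mem_filter] at h3
        exact hans v h3.1 M hM.1 M' hM'.1
      · have hvG' : v ∈ G2 \ G := mem_sdiff.2 ⟨hv, hvG⟩
        obtain ⟨x, hx⟩ : ∃ x : A → W, x = fun a => if a ∈ J then ξ (v, a) else X M a := ⟨_, rfl⟩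
        have e1 : Q.ans v x = Q.ans v (X M) := by
          refine (Q.cert v (X M) x ?_).2
          intro a ha
          rw [hx]
          simp only
          split_ifs with haJ
          · apply hξ (v, a)
            rw [mem_biUnion]
            exact ⟨v, hvG', mem_image.2 ⟨a, mem_inter.2 ⟨ha, haJ⟩, rfl⟩⟩
          · rfl
        have e2 : Q.ans v x = Q.ans v (X M') := by
          refine (Q.cert v (X M') x ?_).2
          intro a ha
          rw [hx]
          simp only
          split_ifs with haJ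
          · apply hξ' (v, a)
            rw [mem_biUnion]
            exact ⟨v, hvG', mem_image.2 ⟨a, mem_inter.2 ⟨ha, haJ⟩, rfl⟩⟩
          · exact hout M hM.1 M' hM'.1 a haJ
        rw [← e1, ← e2]
  have hfin : (7 : ℝ) * L.card ≤ 100 * (Fintype.card W : ℝ) ^ D := by
    have h3 : (L2.card : ℝ) ≤ (Fintype.card W : ℝ) ^ D := by exact_mod_cast hvol
    rw [← hl]
    linarith
  exact_mod_cast hfin

end Pool.Agent.K9h49.SM
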