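import Pool.Agent.K9h49.SM.Rect

set_option autoImplicit false

/-!
# One step of the algorithm: the rectangles of the matrices and vectors with the same probes
-/

namespace Pool.Agent.K9h49.SM

open Finset Pool.Agent.H699R2.OMV

variable {n : ℕ} {A W : Type} [Fintype A] [DecidableEq A] [Fintype W] [DecidableEq W]

/-- the content outside `J` and in `P` -/
def restr (J P : Finset A) (x : A → W) : A → Option W :=
  fun a => if a ∈ J ∧ a ∉ P then none else some (x a)

omit [Fintype A] [Fintype W] [DecidableEq W] in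
lemma restr_eq_iff (J P : Finset A) (x x' : A → W) :
    restr J P x = restr J P x' ↔ ∀ a, (a ∉ J ∨ a ∈ P) → x a = x' a := by
  constructor
  · intro h a ha
    have h1 := congrFun h a
    unfold restr at h1
    rw [if_neg, if_neg] at h1
    · exact Option.some.inj h1
    · tauto
    · tauto
  · intro h
    funext a
    unfold restr
    split_ifs with h1
    · rfl
    · rw [h a (by tauto)]

/-- the probed cells in `J` -/
def prb (Q : Query n A W) (X : Mat n → A → W) (J : Finset A) (p : Mat n × Vec n) : Finset A :=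
  Q.C p.2 (X p.1) ∩ J

/-- the label of a matrix and a vector -/
def lab (Q : Query n A W) (X : Mat n → A → W) (J : Finset A) (p : Mat n × Vec n) :
    Finset A × (A → Option W) :=
  (prb Q X J p, restr J (prb Q X J p) (X p.1))

omit [Fintype A] [Fintype W] [DecidableEq W] in
lemma agree (Q : Query n A W) (X : Mat n → A → W) (J : Finset A) (v : Vec n) (M M' : Mat n)
    (P : Finset A) (hP : Q.C v (X M) ∩ J = P) (h : restr J P (X M) = restr J P (X M')) :
    Q.C v (X M') = Q.C v (X M) ∧ Q.ans v (X M') = Q.ans v (X M) := by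
  apply Q.cert
  intro a ha
  rw [restr_eq_iff] at h
  refine (h a ?_).symm
  by_cases haJ : a ∈ J
  · right; rw [← hP]; exact mem_inter.2 ⟨ha, haJ⟩
  · left; exact haJ

/-- the matrices of the rectangle -/
def rowsOf (Q : Query n A W) (X : Mat n → A → W) (J : Finset A) (S : Finset (Mat n))
    (p : Mat n × Vec n) : Finset (Mat n) :=
  S.filter (fun M => restr J (prb Q X J p) (X M) = restr J (prb Q X J p) (X p.1))

/-- the vectors of the rectangle -/
def colsOf (Q : Query n A W) (X : Mat n → A → W) (J : Finset A) (p : Mat n × Vec n) :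
    Finset (Vec n) :=
  univ.filter (fun v => prb Q X J (p.1, v) = prb Q X J p)

lemma fiber_eq (Q : Query n A W) (X : Mat n → A → W) (J : Finset A) (S : Finset (Mat n))
    (p : Mat n × Vec n) :
    ((S ×ˢ (univ : Finset (Vec n))).filter (fun q => lab Q X J q = lab Q X J p)) =
      rowsOf Q X J S p ×ˢ colsOf Q X J p := by
  ext ⟨M, v⟩
  rw [mem_filter, mem_product, mem_product]
  simp only [mem_univ, and_true]
  unfold rowsOf colsOf
  rw [mem_filter, mem_filter]
  simp only [mem_univ, true_and]
  constructor
  · rintro ⟨hM, hl⟩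
    have h1 : prb Q X J (M, v) = prb Q X J p := congrArg Prod.fst hl
    have h2 : restr J (prb Q X J (M, v)) (X M) = restr J (prb Q X J p) (X p.1) :=
      congrArg Prod.snd hl
    rw [h1] at h2
    refine ⟨⟨hM, h2⟩, ?_⟩
    have h3 := agree Q X J v M p.1 (prb Q X J p) h1 h2
    unfold prb
    simp only
    rw [h3.1]
    exact h1
  · rintro ⟨⟨hM, h2⟩, h1⟩
    refine ⟨hM, ?_⟩
    have h3 := agree Q X J v p.1 M (prb Q X J p) h1 h2.symm
    have h4 : prb Q X J (M, v) = prb Q X J p := by
      rw [← h1]
      unfold prb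
      simp only
      rw [h3.1]
    unfold lab
    rw [h4]
    simp only
    rw [h2]

lemma rowsOf_congr (Q : Query n A W) (X : Mat n → A → W) (J : Finset A) (S : Finset (Mat n))
    (p q : Mat n × Vec n) (h : lab Q X J q = lab Q X J p) :
    rowsOf Q X J S q = rowsOf Q X J S p := by
  have h1 : prb Q X J q = prb Q X J p := congrArg Prod.fst h
  have h2 : restr J (prb Q X J q) (X q.1) = restr J (prb Q X J p) (X p.1) :=
    congrArg Prod.snd h
  unfold rowsOf
  rw [← h2, ← h1]

lemma colsOf_congr (Q : Query n A W) (X : Mat n → A → W) (J : Finset A)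
    (p q : Mat n × Vec n) (h : lab Q X J q = lab Q X J p) :
    colsOf Q X J q = colsOf Q X J p := by
  have h1 : prb Q X J q = prb Q X J p := congrArg Prod.fst h
  have h2 : restr J (prb Q X J q) (X q.1) = restr J (prb Q X J p) (X p.1) :=
    congrArg Prod.snd h
  rw [h1] at h2
  unfold colsOf
  ext v
  simp only [mem_filter, mem_univ, true_and]
  rw [h1]
  constructor
  · intro h3
    have h4 := agree Q X J v q.1 p.1 (prb Q X J p) h3 h2
    rw [← h3]
    unfold prb
    simp only
    rw [h4.1]
  · intro h3
    have h4 := agree Q X J v p.1 q.1 (prb Q X J p) h3 h2.symm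
    rw [← h3]
    unfold prb
    simp only
    rw [h4.1]

/-- subsets with at most `E` elements -/
lemma card_small (J : Finset A) (E : ℕ) :
    (J.powerset.filter (fun P => P.card ≤ E)).card ≤ (J.card + 1) ^ E := by
  classical
  have h1 : (Fintype.card (Fin E → Option J)) = (J.card + 1) ^ E := by
    simp
  rw [← h1, ← card_univ]
  apply card_le_card_of_surjOn
    (fun g : Fin E → Option J => J.filter (fun a => ∃ i, ∃ h : a ∈ J, g i = some ⟨a, h⟩))
  intro P hP
  have hP' : P ∈ J.powerset.filter (fun P => P.card ≤ E) := hP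
  rw [mem_filter, mem_powerset] at hP'
  obtain ⟨hPJ, hPE⟩ := hP'
  rw [Set.mem_image]
  let e := P.equivFin
  refine ⟨fun i => if h : i.1 < P.card then
    some ⟨(e.symm ⟨i.1, h⟩ : A), hPJ (e.symm ⟨i.1, h⟩).2⟩ else none, by simp, ?_⟩
  ext a
  rw [mem_filter]
  constructor
  · rintro ⟨_, i, h, hi⟩
    simp only at hi
    split_ifs at hi with h2
    have h3 := Option.some.inj hi
    have h4 : (e.symm ⟨i.1, h2⟩ : A) = a := congrArg Subtype.val h3
    rw [← h4]
    exact (e.symm ⟨i.1, h2⟩).2
  · intro ha
    refine ⟨hPJ ha, ⟨(e ⟨a, ha⟩).1, lt_of_lt_of_le (e ⟨a, ha⟩).2 hPE⟩, hPJ ha, ?_⟩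
    simp only
    rw [dif_pos (e ⟨a, ha⟩).2]
    simp

lemma bad_vecs (Q : Query n A W) (X : Mat n → A → W) (J : Finset A) (E : ℕ) (M : Mat n) :
    40 * ((univ : Finset (Vec n)).filter (fun v => (prb Q X J (M, v)).card ≤ E ∧
      40 * (J.card + 1) ^ E * (colsOf Q X J (M, v)).card < 2 ^ n)).card ≤ 2 ^ n := by
  classical
  obtain ⟨s, hs⟩ : ∃ s, s = (univ : Finset (Vec n)).filter (fun v => (prb Q X J (M, v)).card ≤ E ∧
      40 * (J.card + 1) ^ E * (colsOf Q X J (M, v)).card < 2 ^ n) := ⟨_, rfl⟩
  rw [← hs]
  have h1 : s.card = ∑ P ∈ s.image (fun v => prb Q X J (M, v)),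
      (s.filter (fun v => prb Q X J (M, v) = P)).card :=
    card_eq_sum_card_image _ _
  have h2 : (s.image (fun v => prb Q X J (M, v))).card ≤ (J.card + 1) ^ E := by
    refine (card_le_card ?_).trans (card_small J E)
    intro P hP
    rw [mem_image] at hP
    obtain ⟨v, hv, rfl⟩ := hP
    rw [hs, mem_filter] at hv
    rw [mem_filter, mem_powerset]
    exact ⟨inter_subset_right, hv.2.1⟩
  have h3 : 40 * (J.card + 1) ^ E * s.card ≤ (J.card + 1) ^ E * 2 ^ n := by
    calc 40 * (J.card + 1) ^ E * s.card =
          ∑ P ∈ s.image (fun v => prb Q X J (M, v)), 40 * (J.card + 1) ^ E *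
          (s.filter (fun v => prb Q X J (M, v) = P)).card := by
          rw [← mul_sum, ← h1]
      _ ≤ ∑ _P ∈ s.image (fun v => prb Q X J (M, v)), 2 ^ n := by
          apply sum_le_sum
          intro P hP
          rw [mem_image] at hP
          obtain ⟨v, hv, rfl⟩ := hP
          rw [hs, mem_filter] at hv
          refine le_trans ?_ hv.2.2.le
          gcongr
          unfold colsOf
          intro u hu
          rw [mem_filter] at hu ⊢
          exact ⟨mem_univ _, hu.2⟩
      _ = (s.image (fun v => prb Q X J (M, v))).card * 2 ^ n := by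
          rw [sum_const, smul_eq_mul]
      _ ≤ _ := Nat.mul_le_mul_right _ h2
  have h4 : 0 < (J.card + 1) ^ E := by positivity
  have h5 : (J.card + 1) ^ E * (40 * s.card) ≤ (J.card + 1) ^ E * 2 ^ n := by
    calc _ = 40 * (J.card + 1) ^ E * s.card := by ring
      _ ≤ _ := h3
  exact Nat.le_of_mul_le_mul_left h5 h4

lemma bad_mats [Nonempty W] (Q : Query n A W) (X : Mat n → A → W) (J : Finset A) (E : ℕ)
    (S : Finset (Mat n)) (v : Vec n) :
    40 * (S.filter (fun M => (prb Q X J (M, v)).card ≤ E ∧
      40 * Fintype.card W ^ (Fintype.card A - J.card + E) * (rowsOf Q X J S (M, v)).card <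
        2 ^ (n * n))).card ≤ 2 ^ (n * n) := by
  classical
  obtain ⟨N, hN⟩ : ∃ N, N = Fintype.card W ^ (Fintype.card A - J.card + E) := ⟨_, rfl⟩
  rw [← hN]
  obtain ⟨s, hs⟩ : ∃ s, s = S.filter (fun M => (prb Q X J (M, v)).card ≤ E ∧
      40 * N * (rowsOf Q X J S (M, v)).card < 2 ^ (n * n)) := ⟨_, rfl⟩
  rw [← hs]
  have h1 : s.card = ∑ P ∈ s.image (fun M => lab Q X J (M, v)),
      (s.filter (fun M => lab Q X J (M, v) = P)).card :=
    card_eq_sum_card_image _ _
  have h2 : (s.image (fun M => lab Q X J (M, v))).card ≤ N := by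
    rw [hN]
    apply volume (κ := A) (s.image (fun M => lab Q X J (M, v)))
      (fun l a => (l.2 a).getD (Classical.arbitrary W))
      (fun l => univ \ (J \ l.1))
    · intro l hl
      rw [mem_image] at hl
      obtain ⟨M, hM, rfl⟩ := hl
      rw [hs, mem_filter] at hM
      have h3 : (lab Q X J (M, v)).1 = prb Q X J (M, v) := rfl
      rw [h3]
      have h4 : prb Q X J (M, v) ⊆ J := inter_subset_right
      rw [card_sdiff_of_subset (subset_univ _), card_sdiff_of_subset h4, card_univ]
      have h5 := hM.2.1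
      have h6 : J.card ≤ Fintype.card A := card_le_univ J
      omega
    · intro l hl l' hl' ξ hξ hξ'
      rw [mem_image] at hl hl'
      obtain ⟨M, hM, rfl⟩ := hl
      obtain ⟨M', hM', rfl⟩ := hl'
      have key : ∀ M : Mat n, (∀ a ∈ univ \ (J \ (lab Q X J (M, v)).1),
          ξ a = ((lab Q X J (M, v)).2 a).getD (Classical.arbitrary W)) →
          ∀ a, (a ∉ J ∨ a ∈ prb Q X J (M, v)) → ξ a = X M a := by
        intro M h a ha
        have h3 := h a (by
          rw [mem_sdiff, mem_sdiff]
          refine ⟨mem_univ _, ?_⟩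
          have h4 : (lab Q X J (M, v)).1 = prb Q X J (M, v) := rfl
          rw [h4]
          tauto)
        have h4 : (lab Q X J (M, v)).2 a = some (X M a) := by
          change restr J (prb Q X J (M, v)) (X M) a = _
          unfold restr
          rw [if_neg (by tauto)]
        rw [h4] at h3
        exact h3
      have k1 := key M hξ
      have k2 := key M' hξ'
      have key2 : ∀ M : Mat n, (∀ a, (a ∉ J ∨ a ∈ prb Q X J (M, v)) → ξ a = X M a) →
          Q.C v ξ = Q.C v (X M) := by
        intro M h
        refine (Q.cert v (X M) ξ ?_).1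
        intro a ha
        apply h
        by_cases haJ : a ∈ J
        · right; exact mem_inter.2 ⟨ha, haJ⟩
        · left; exact haJ
      have c1 := key2 M k1
      have c2 := key2 M' k2
      have c3 : prb Q X J (M, v) = prb Q X J (M', v) := by
        unfold prb
        simp only
        rw [← c1, ← c2]
      unfold lab
      rw [c3]
      congr 1
      rw [restr_eq_iff]
      intro a ha
      rw [← k2 a ha]
      rw [← c3] at ha
      rw [← k1 a ha]
  have h3 : 40 * N * s.card ≤ N * 2 ^ (n * n) := by
    calc 40 * N * s.card =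
          ∑ P ∈ s.image (fun M => lab Q X J (M, v)), 40 * N *
          (s.filter (fun M => lab Q X J (M, v) = P)).card := by
          rw [← mul_sum, ← h1]
      _ ≤ ∑ _P ∈ s.image (fun M => lab Q X J (M, v)), 2 ^ (n * n) := by
          apply sum_le_sum
          intro P hP
          rw [mem_image] at hP
          obtain ⟨M, hM, rfl⟩ := hP
          rw [hs, mem_filter] at hM
          refine le_trans ?_ hM.2.2.le
          gcongr
          unfold rowsOf
          intro M' hM'
          rw [mem_filter] at hM' ⊢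
          refine ⟨(mem_filter.1 (hs ▸ hM'.1)).1, ?_⟩
          have h5 : prb Q X J (M', v) = prb Q X J (M, v) := congrArg Prod.fst hM'.2
          have h6 : restr J (prb Q X J (M', v)) (X M') = restr J (prb Q X J (M, v)) (X M) :=
            congrArg Prod.snd hM'.2
          rw [h5] at h6
          exact h6
      _ = (s.image (fun M => lab Q X J (M, v))).card * 2 ^ (n * n) := by
          rw [sum_const, smul_eq_mul]
      _ ≤ _ := Nat.mul_le_mul_right _ h2
  have h4 : 0 < N := by rw [hN]; exact pow_pos Fintype.card_pos _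
  have h5 : N * (40 * s.card) ≤ N * 2 ^ (n * n) := by
    calc _ = 40 * N * s.card := by ring
      _ ≤ _ := h3
  exact Nat.le_of_mul_le_mul_left h5 h4

end Pool.Agent.K9h49.SM
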