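import Pool.Agent.K9h49.SM.Static

set_option autoImplicit false

/-!
# One step of the algorithm: the inequality
-/

namespace Pool.Agent.K9h49.SM

open Finset Pool.Agent.H699R2.OMV

variable {n : ℕ} {A W : Type} [Fintype A] [DecidableEq A] [Fintype W] [DecidableEq W]

lemma card_vec (n : ℕ) : Fintype.card (Vec n) = 2 ^ n := by simp [Vec, ZMod.card]

lemma card_mat (n : ℕ) : Fintype.card (Mat n) = 2 ^ (n * n) := by
  have h : Fintype.card (Mat n) = Fintype.card (Fin n → Fin n → ZMod 2) := rfl
  rw [h]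
  simp [ZMod.card, pow_mul]

/-- a rectangle is good -/
def good (Q : Query n A W) (X : Mat n → A → W) (J : Finset A) (S : Finset (Mat n)) (E : ℕ)
    (p : Mat n × Vec n) : Prop :=
  (prb Q X J p).card ≤ E ∧ 2 ^ n ≤ 40 * (J.card + 1) ^ E * (colsOf Q X J p).card ∧
    2 ^ (n * n) ≤ 40 * Fintype.card W ^ (Fintype.card A - J.card + E) * (rowsOf Q X J S p).card

instance (Q : Query n A W) (X : Mat n → A → W) (J : Finset A) (S : Finset (Mat n)) (E : ℕ)
    (p : Mat n × Vec n) : Decidable (good Q X J S E p) := by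
  unfold good; infer_instance

lemma bad_count [Nonempty W] (Q : Query n A W) (X : Mat n → A → W) (J : Finset A)
    (S : Finset (Mat n)) (E : ℕ) :
    (((S ×ˢ (univ : Finset (Vec n))).filter (fun p => ¬ good Q X J S E p)).card : ℝ) ≤
      (∑ M ∈ S, ∑ v, cost Q X J M v) / (E + 1) + 1 / 20 * (2 ^ (n * n) * 2 ^ n) := by
  classical
  obtain ⟨P1, hP1⟩ : ∃ P1 : Mat n × Vec n → Prop, P1 = fun p => E + 1 ≤ (prb Q X J p).card :=
    ⟨_, rfl⟩
  obtain ⟨P2, hP2⟩ : ∃ P2 : Mat n × Vec n → Prop, P2 = fun p => (prb Q X J p).card ≤ E ∧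
      40 * (J.card + 1) ^ E * (colsOf Q X J p).card < 2 ^ n := ⟨_, rfl⟩
  obtain ⟨P3, hP3⟩ : ∃ P3 : Mat n × Vec n → Prop, P3 = fun p => (prb Q X J p).card ≤ E ∧
      40 * Fintype.card W ^ (Fintype.card A - J.card + E) * (rowsOf Q X J S p).card <
        2 ^ (n * n) := ⟨_, rfl⟩
  have hsub : (S ×ˢ (univ : Finset (Vec n))).filter (fun p => ¬ good Q X J S E p) ⊆
      ((S ×ˢ (univ : Finset (Vec n))).filter P1 ∪ (S ×ˢ (univ : Finset (Vec n))).filter P2) ∪
        (S ×ˢ (univ : Finset (Vec n))).filter P3 := by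
    intro p hp
    rw [mem_filter] at hp
    rw [mem_union, mem_union, mem_filter, mem_filter, mem_filter]
    have h := hp.2
    unfold good at h
    rw [hP1, hP2, hP3]
    by_cases h1 : (prb Q X J p).card ≤ E
    · by_cases h2 : 2 ^ n ≤ 40 * (J.card + 1) ^ E * (colsOf Q X J p).card
      · right
        refine ⟨hp.1, h1, ?_⟩
        by_contra h3
        exact h ⟨h1, h2, not_lt.1 h3⟩
      · left; right
        exact ⟨hp.1, h1, not_le.1 h2⟩
    · left; left
      exact ⟨hp.1, by omega⟩
  have hc := (card_le_card hsub).trans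
    ((card_union_le _ _).trans (Nat.add_le_add_right (card_union_le _ _) _))
  have hc' : (((S ×ˢ (univ : Finset (Vec n))).filter (fun p => ¬ good Q X J S E p)).card : ℝ) ≤
      (((S ×ˢ (univ : Finset (Vec n))).filter P1).card : ℝ) +
      (((S ×ˢ (univ : Finset (Vec n))).filter P2).card : ℝ) +
      (((S ×ˢ (univ : Finset (Vec n))).filter P3).card : ℝ) := by exact_mod_cast hc
  have h1 : (((S ×ˢ (univ : Finset (Vec n))).filter P1).card : ℝ) ≤
      (∑ M ∈ S, ∑ v, cost Q X J M v) / (E + 1) := by
    rw [le_div_iff₀ (by positivity), mul_comm]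
    rw [← sum_product (f := fun p : Mat n × Vec n => cost Q X J p.1 p.2)]
    apply markov_count
    · intro p _; exact cost_nonneg _ _ _ _ _
    · intro p _ hp
      rw [hP1] at hp
      unfold cost
      have h2 : E + 1 ≤ (Q.C p.2 (X p.1) ∩ J).card := hp
      exact_mod_cast h2
  have h2 : (((S ×ˢ (univ : Finset (Vec n))).filter P2).card : ℝ) ≤
      1 / 40 * (2 ^ (n * n) * 2 ^ n) := by
    have e1 : ((S ×ˢ (univ : Finset (Vec n))).filter P2).card =
        ∑ M ∈ S, ((univ : Finset (Vec n)).filter (fun v => P2 (M, v))).card := by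
      simp only [card_filter, sum_product]
    have e2 : 40 * ((S ×ˢ (univ : Finset (Vec n))).filter P2).card ≤ 2 ^ (n * n) * 2 ^ n := by
      rw [e1, mul_sum]
      calc ∑ M ∈ S, 40 * ((univ : Finset (Vec n)).filter (fun v => P2 (M, v))).card ≤
            ∑ _M ∈ S, 2 ^ n := by
            apply sum_le_sum
            intro M _
            rw [hP2]
            refine le_trans (le_of_eq (congrArg (fun k => 40 * k) (congrArg Finset.card ?_)))
              (bad_vecs Q X J E M)
            ext v
            simp only [mem_filter]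
        _ = S.card * 2 ^ n := by rw [sum_const, smul_eq_mul]
        _ ≤ _ := by
            apply Nat.mul_le_mul_right
            rw [← card_mat]
            exact card_le_univ S
    have e3 : (40 : ℝ) * (((S ×ˢ (univ : Finset (Vec n))).filter P2).card : ℝ) ≤
        2 ^ (n * n) * 2 ^ n := by exact_mod_cast e2
    linarith
  have h3 : (((S ×ˢ (univ : Finset (Vec n))).filter P3).card : ℝ) ≤
      1 / 40 * (2 ^ (n * n) * 2 ^ n) := by
    have e1 : ((S ×ˢ (univ : Finset (Vec n))).filter P3).card =
        ∑ v : Vec n, (S.filter (fun M => P3 (M, v))).card := by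
      simp only [card_filter, sum_product]
      rw [sum_comm]
    have e2 : 40 * ((S ×ˢ (univ : Finset (Vec n))).filter P3).card ≤ 2 ^ (n * n) * 2 ^ n := by
      rw [e1, mul_sum]
      calc ∑ v : Vec n, 40 * (S.filter (fun M => P3 (M, v))).card ≤
            ∑ _v : Vec n, 2 ^ (n * n) := by
            apply sum_le_sum
            intro v _
            rw [hP3]
            refine le_trans (le_of_eq (congrArg (fun k => 40 * k) (congrArg Finset.card ?_)))
              (bad_mats Q X J E S v)
            ext M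
            simp only [mem_filter]
        _ = 2 ^ (n * n) * 2 ^ n := by rw [sum_const, smul_eq_mul, card_univ, card_vec]; ring
        _ ≤ _ := le_refl _
    have e3 : (40 : ℝ) * (((S ×ˢ (univ : Finset (Vec n))).filter P3).card : ℝ) ≤
        2 ^ (n * n) * 2 ^ n := by exact_mod_cast e2
    linarith
  linarith

/-- **the inequality for one step** -/
lemma static_main [Nonempty W] (Q : Query n A W) (X : Mat n → A → W) (J : Finset A)
    (S : Finset (Mat n)) (K : ℝ) (hK : 0 < K) (B D E : ℕ) (hn : 0 < n)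
    (h500 : 500 * B ≤ n) (hB : 640 * (J.card + 1) ^ E ≤ 2 ^ B)
    (hD : 40 * (B : ℝ) ≤ K * (D + 1))
    (hsz : 4000 * Fintype.card W ^ (Fintype.card A - J.card + E + D) < 7 * 2 ^ (n * n)) :
    4 / 5 * ((S.card : ℝ) * 2 ^ n) ≤
      11 / 10 * n * (∑ M ∈ S, ∑ v, wr Q X M v) +
      (K + 4 / 5 / (E + 1)) * (∑ M ∈ S, ∑ v, cost Q X J M v) +
      1 / 25 * (2 ^ (n * n) * 2 ^ n) := by
  classical
  obtain ⟨pairs, hpairs⟩ : ∃ pairs, pairs = S ×ˢ (univ : Finset (Vec n)) := ⟨_, rfl⟩
  obtain ⟨g2, hg2⟩ : ∃ g2 : Mat n → ℝ, g2 = fun M =>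
    (∑ v, ((n : ℝ) / 10 * wr Q X M v + K * cost Q X J M v)) / 2 ^ n := ⟨_, rfl⟩
  have hg20 : ∀ M, 0 ≤ g2 M := by
    intro M
    rw [hg2]
    apply div_nonneg _ (by positivity)
    apply sum_nonneg
    intro v _
    have h3 := wr_nonneg Q X M v
    have h4 := cost_nonneg Q X J M v
    positivity
  obtain ⟨g, hg⟩ : ∃ g : Mat n × Vec n → ℝ, g = fun p =>
    4 / 5 * (if good Q X J S E p then (1 : ℝ) else 0) - n * wr Q X p.1 p.2 - g2 p.1 := ⟨_, rfl⟩
  have hcardV : ((univ : Finset (Vec n)).card : ℝ) = 2 ^ n := by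
    rw [card_univ, card_vec]; push_cast; rfl
  have key : ∑ p ∈ pairs, g p ≤ 0 := by
    rw [← Finset.sum_fiberwise pairs (lab Q X J) g]
    apply sum_nonpos
    intro l _
    rcases (pairs.filter (fun p => lab Q X J p = l)).eq_empty_or_nonempty with h0 | h0
    · rw [h0, sum_empty]
    · obtain ⟨p, hp⟩ := h0
      rw [mem_filter] at hp
      obtain ⟨hp1, rfl⟩ := hp
      have hpS : p.1 ∈ S := by rw [hpairs, mem_product] at hp1; exact hp1.1
      have hfib := fiber_eq Q X J S p
      rw [← hpairs] at hfib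
      have e1 : ∑ q ∈ pairs.filter (fun q => lab Q X J q = lab Q X J p), g q =
          ∑ q ∈ rowsOf Q X J S p ×ˢ colsOf Q X J p,
            (4 / 5 * (if good Q X J S E p then (1 : ℝ) else 0) - n * wr Q X q.1 q.2 - g2 q.1) := by
        rw [← hfib]
        apply sum_congr rfl
        intro q hq
        rw [mem_filter] at hq
        have h1 : good Q X J S E q ↔ good Q X J S E p := by
          unfold good
          rw [rowsOf_congr Q X J S p q hq.2, colsOf_congr Q X J p q hq.2]
          have h2 : prb Q X J q = prb Q X J p := congrArg Prod.fst hq.2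
          rw [h2]
        rw [hg]
        simp only [h1]
      rw [e1]
      obtain ⟨R, hR⟩ : ∃ R, R = rowsOf Q X J S p := ⟨_, rfl⟩
      obtain ⟨Vs, hVs⟩ : ∃ Vs, Vs = colsOf Q X J p := ⟨_, rfl⟩
      rw [← hR, ← hVs, sum_product]
      by_cases hgd : good Q X J S E p
      · rw [if_pos hgd]
        by_contra hcon
        push Not at hcon
        have e2 : ∑ M ∈ R, ∑ v ∈ Vs, ((4 / 5 : ℝ) * 1 - n * wr Q X M v - g2 M) =
            4 / 5 * (R.card : ℝ) * Vs.card - n * ∑ v ∈ Vs, ∑ M ∈ R, wr Q X M v -
              Vs.card * ∑ M ∈ R, g2 M := by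
          rw [sum_comm (s := Vs) (t := R)]
          simp only [sum_sub_distrib, sum_const, nsmul_eq_mul, mul_sum]
          ring
        rw [e2] at hcon
        have hpV : p.2 ∈ Vs := by
          rw [hVs]; unfold colsOf; rw [mem_filter]; exact ⟨mem_univ _, rfl⟩
        have hpR : p.1 ∈ R := by
          rw [hR]; unfold rowsOf; rw [mem_filter]; exact ⟨hpS, rfl⟩
        have hV0 : (0 : ℝ) < Vs.card := by exact_mod_cast card_pos.2 ⟨_, hpV⟩
        have hg2s : 0 ≤ ∑ M ∈ R, g2 M := sum_nonneg fun M _ => hg20 M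
        have herrs : 0 ≤ (n : ℝ) * ∑ v ∈ Vs, ∑ M ∈ R, wr Q X M v :=
          mul_nonneg (Nat.cast_nonneg _)
            (sum_nonneg fun v _ => sum_nonneg fun M _ => wr_nonneg Q X M v)
        have h1 : (n : ℝ) * ∑ v ∈ Vs, ∑ M ∈ R, wr Q X M v < 4 / 5 * R.card * Vs.card := by
          have := mul_nonneg hV0.le hg2s
          linarith
        have h2 : ∑ M ∈ R, g2 M < 4 / 5 * R.card := by
          have h3 : (Vs.card : ℝ) * ∑ M ∈ R, g2 M < Vs.card * (4 / 5 * R.card) := by
            have : (Vs.card : ℝ) * (4 / 5 * R.card) = 4 / 5 * R.card * Vs.card := by ring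
            linarith
          exact lt_of_mul_lt_mul_left h3 hV0.le
        have h3 : ∑ v : Vec n, ((n : ℝ) / 10 * ∑ M ∈ R, wr Q X M v +
            K * ∑ M ∈ R, cost Q X J M v) < 4 / 5 * R.card * 2 ^ n := by
          have h4 : ∑ M ∈ R, g2 M = (∑ v : Vec n, ((n : ℝ) / 10 * ∑ M ∈ R, wr Q X M v +
            K * ∑ M ∈ R, cost Q X J M v)) / 2 ^ n := by
            rw [hg2]
            simp only
            rw [← sum_div, sum_comm]
            congr 1
            apply sum_congr rfl
            intro v _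
            rw [sum_add_distrib, mul_sum, mul_sum]
          rw [h4, div_lt_iff₀ (by positivity)] at h2
          exact h2
        have hfin := rect Q X J R Vs K hK B D hn ?_ ?_ h500 ?_ hD h1 h3
        · have h4 := hgd.2.2
          rw [← hR] at h4
          have h5 : 7 * 2 ^ (n * n) ≤ 4000 *
              Fintype.card W ^ (Fintype.card A - J.card + E + D) := by
            calc 7 * 2 ^ (n * n) ≤ 7 * (40 *
                  Fintype.card W ^ (Fintype.card A - J.card + E) * R.card) :=
                  Nat.mul_le_mul_left _ h4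
              _ = 40 * Fintype.card W ^ (Fintype.card A - J.card + E) * (7 * R.card) := by ring
              _ ≤ 40 * Fintype.card W ^ (Fintype.card A - J.card + E) *
                  (100 * Fintype.card W ^ D) := Nat.mul_le_mul_left _ hfin
              _ = _ := by rw [pow_add _ (Fintype.card A - J.card + E) D]; ring
          omega
        · intro M hM M' hM' a ha
          rw [hR] at hM hM'
          unfold rowsOf at hM hM'
          rw [mem_filter] at hM hM'
          have h4 := hM.2.trans hM'.2.symm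
          rw [restr_eq_iff] at h4
          exact h4 a (Or.inl ha)
        · intro v hv M hM M' hM'
          rw [hVs] at hv
          unfold colsOf at hv
          rw [mem_filter] at hv
          rw [hR] at hM hM'
          unfold rowsOf at hM hM'
          rw [mem_filter] at hM hM'
          have h4 := agree Q X J v p.1 M (prb Q X J p) hv.2 hM.2.symm
          have h5 := agree Q X J v p.1 M' (prb Q X J p) hv.2 hM'.2.symm
          rw [h4.2, h5.2]
        · have h4 := hgd.2.1
          rw [← hVs] at h4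
          calc 16 * 2 ^ n ≤ 16 * (40 * (J.card + 1) ^ E * Vs.card) := Nat.mul_le_mul_left _ h4
            _ = Vs.card * (640 * (J.card + 1) ^ E) := by ring
            _ ≤ _ := Nat.mul_le_mul_left _ hB
      · rw [if_neg hgd]
        apply sum_nonpos
        intro M _
        apply sum_nonpos
        intro v _
        have h3 := wr_nonneg Q X M v
        have h4 := hg20 M
        have h5 : 0 ≤ (n : ℝ) * wr Q X M v := by positivity
        linarith
  have e3 : ∑ p ∈ pairs, g p = 4 / 5 * ((pairs.filter (fun p => good Q X J S E p)).card : ℝ) -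
      n * (∑ M ∈ S, ∑ v, wr Q X M v) - ∑ M ∈ S, ∑ _v : Vec n, g2 M := by
    rw [hg, hpairs]
    simp only [sum_sub_distrib]
    congr 1
    · congr 1
      · rw [← mul_sum, sum_boole]
      · rw [← mul_sum, sum_product]
    · rw [sum_product]
  have e4 : ∑ M ∈ S, ∑ _v : Vec n, g2 M = n / 10 * (∑ M ∈ S, ∑ v, wr Q X M v) +
      K * (∑ M ∈ S, ∑ v, cost Q X J M v) := by
    rw [mul_sum, mul_sum, ← sum_add_distrib]
    apply sum_congr rfl
    intro M _
    rw [sum_const, nsmul_eq_mul, hcardV, hg2]
    simp only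
    rw [mul_div_cancel₀ _ (by positivity), sum_add_distrib, mul_sum, mul_sum]
  have e5 : (S.card : ℝ) * 2 ^ n = ((pairs.filter (fun p => good Q X J S E p)).card : ℝ) +
      ((pairs.filter (fun p => ¬ good Q X J S E p)).card : ℝ) := by
    have h3 : (pairs.filter (fun p => good Q X J S E p)).card +
        (pairs.filter (fun p => ¬ good Q X J S E p)).card = pairs.card :=
      Finset.card_filter_add_card_filter_not _
    have h4 : pairs.card = S.card * 2 ^ n := by
      rw [hpairs, card_product, card_univ, card_vec]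
    rw [h4] at h3
    exact_mod_cast h3.symm
  have hbad := bad_count Q X J S E
  rw [← hpairs] at hbad
  rw [e3, e4] at key
  obtain ⟨c, hc⟩ : ∃ c, c = ∑ M ∈ S, ∑ v, cost Q X J M v := ⟨_, rfl⟩
  obtain ⟨er, her⟩ : ∃ er, er = ∑ M ∈ S, ∑ v, wr Q X M v := ⟨_, rfl⟩
  rw [← hc] at hbad key ⊢
  rw [← her] at key ⊢
  have e6 : (K + 4 / 5 / ((E : ℝ) + 1)) * c = K * c + 4 / 5 * (c / (E + 1)) := by ring
  rw [e5, e6]
  have e7 : 11 / 10 * (n : ℝ) * er = n * er + n / 10 * er := by ring
  rw [e7]
  linarith

end Pool.Agent.K9h49.SM
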