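import Pool.Agent.H699R2.OMV.Core

set_option autoImplicit false

/-!
# Counting by volume, and two facts of linear algebra over the field with two elements
-/

namespace Pool.Agent.K9h49.SM

open Finset Pool.Agent.H699R2.OMV

/-- Subcubes with at most `Δ` fixed coordinates which are pairwise disjoint: at most `|W| ^ Δ`. -/
lemma volume {ι κ W : Type*} [Fintype κ] [DecidableEq κ] [Fintype W] [DecidableEq W] [Nonempty W]
    (s : Finset ι) (val : ι → κ → W) (S : ι → Finset κ) (Δ : ℕ)
    (hS : ∀ i ∈ s, (S i).card ≤ Δ)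
    (hd : ∀ i ∈ s, ∀ j ∈ s, ∀ ξ : κ → W, (∀ p ∈ S i, ξ p = val i p) →
      (∀ p ∈ S j, ξ p = val j p) → i = j) :
    s.card ≤ Fintype.card W ^ Δ := by
  classical
  obtain ⟨w, hw⟩ : ∃ w, w = Fintype.card W := ⟨_, rfl⟩
  have hw0 : 0 < w := by rw [hw]; exact Fintype.card_pos
  rw [← hw]
  let cube : ι → Finset (κ → W) :=
    fun i => Fintype.piFinset (fun p => if p ∈ S i then {val i p} else univ)
  have hcube : ∀ i, (cube i).card = w ^ (Fintype.card κ - (S i).card) := by
    intro i
    simp only [cube, Fintype.card_piFinset]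
    have h1 : ∀ p, (if p ∈ S i then ({val i p} : Finset W) else univ).card =
        if p ∈ S i then 1 else w := by
      intro p
      split_ifs
      · simp
      · rw [card_univ, hw]
    simp_rw [h1]
    rw [Finset.prod_ite]
    simp only [prod_const_one, one_mul, prod_const]
    congr 1
    rw [Finset.filter_not, Finset.filter_mem_eq_inter, Finset.univ_inter]
    rw [← Finset.compl_eq_univ_sdiff, Finset.card_compl]
  have hmem : ∀ i ξ, ξ ∈ cube i ↔ ∀ p ∈ S i, ξ p = val i p := by
    intro i ξ
    simp only [cube, Fintype.mem_piFinset]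
    constructor
    · intro h p hp
      have := h p
      rw [if_pos hp, mem_singleton] at this
      exact this
    · intro h p
      split_ifs with hp
      · rw [mem_singleton]; exact h p hp
      · exact mem_univ _
  have hdisj : ∀ i ∈ s, ∀ j ∈ s, i ≠ j → Disjoint (cube i) (cube j) := by
    intro i hi j hj hij
    rw [Finset.disjoint_left]
    intro ξ h1 h2
    exact hij (hd i hi j hj ξ ((hmem i ξ).1 h1) ((hmem j ξ).1 h2))
  have h1 : ∑ i ∈ s, (cube i).card ≤ w ^ Fintype.card κ := by
    rw [← Finset.card_biUnion hdisj]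
    calc (s.biUnion cube).card ≤ (univ : Finset (κ → W)).card := card_le_card (subset_univ _)
      _ = _ := by rw [card_univ, Fintype.card_fun, hw]
  have h2 : s.card * w ^ Fintype.card κ ≤ w ^ Δ * w ^ Fintype.card κ := by
    calc s.card * w ^ Fintype.card κ = ∑ _i ∈ s, w ^ Fintype.card κ := by
          rw [sum_const, smul_eq_mul]
      _ ≤ ∑ i ∈ s, w ^ Δ * (cube i).card := by
          apply sum_le_sum
          intro i hi
          rw [hcube, ← pow_add]
          apply Nat.pow_le_pow_right hw0
          have h3 := hS i hi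
          omega
      _ = w ^ Δ * ∑ i ∈ s, (cube i).card := by rw [mul_sum]
      _ ≤ _ := Nat.mul_le_mul_left _ h1
  exact Nat.le_of_mul_le_mul_right h2 (pow_pos hw0 _)

lemma card_span_le {n : ℕ} (b : Finset (Vec n)) (T : Finset (Vec n))
    (hT : (T : Set (Vec n)) ⊆ Submodule.span (ZMod 2) (b : Set (Vec n))) :
    T.card ≤ 2 ^ b.card := by
  classical
  obtain ⟨U, hU⟩ : ∃ U, U = Submodule.span (ZMod 2) (b : Set (Vec n)) := ⟨_, rfl⟩
  rw [← hU] at hT
  have h1 : Nat.card U = 2 ^ Module.finrank (ZMod 2) U := by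
    rw [Nat.card_eq_fintype_card, Module.card_eq_pow_finrank (K := ZMod 2) (V := U), ZMod.card]
  have h2 : T.card ≤ Nat.card U := by
    have h3 : T.card = Nat.card (T : Set (Vec n)) := by simp
    rw [h3]
    exact Nat.card_mono (Set.toFinite _) hT
  have h4 : Module.finrank (ZMod 2) U ≤ b.card := by
    rw [hU]
    exact finrank_span_finset_le_card b
  calc T.card ≤ 2 ^ Module.finrank (ZMod 2) U := by rw [← h1]; exact h2
    _ ≤ 2 ^ b.card := Nat.pow_le_pow_right (by norm_num) h4

lemma span_eq_top {n : ℕ} (H : Finset (Vec n)) (hH : 2 ^ n < 2 * H.card) :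
    Submodule.span (ZMod 2) (H : Set (Vec n)) = ⊤ := by
  classical
  by_contra hne
  obtain ⟨U, hU⟩ : ∃ U, U = Submodule.span (ZMod 2) (H : Set (Vec n)) := ⟨_, rfl⟩
  rw [← hU] at hne
  have h0 : Module.finrank (ZMod 2) U < n := by
    have := Submodule.finrank_lt hne
    simpa using this
  have h1 : Nat.card U = 2 ^ Module.finrank (ZMod 2) U := by
    rw [Nat.card_eq_fintype_card, Module.card_eq_pow_finrank (K := ZMod 2) (V := U), ZMod.card]
  have h2 : H.card ≤ Nat.card U := by
    have h3 : H.card = Nat.card (H : Set (Vec n)) := by simp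
    rw [h3]
    exact Nat.card_mono (Set.toFinite _) (by rw [hU]; exact Submodule.subset_span)
  have h5 : 2 * 2 ^ Module.finrank (ZMod 2) U ≤ 2 ^ n := by
    rw [← pow_succ']
    exact Nat.pow_le_pow_right (by norm_num) h0
  rw [h1] at h2
  omega

lemma mat_ext_span {n : ℕ} (b : Set (Vec n)) (hb : Submodule.span (ZMod 2) b = ⊤) (M M' : Mat n)
    (h : ∀ v ∈ b, M.mulVec v = M'.mulVec v) : M = M' := by
  have h1 : Matrix.toLin' M = Matrix.toLin' M' := by
    apply LinearMap.ext_on hb
    intro v hv
    rw [Matrix.toLin'_apply, Matrix.toLin'_apply]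
    exact h v hv
  exact Matrix.toLin'.injective h1

end Pool.Agent.K9h49.SM
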